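import Pool.Agent.Q292.GPNumber

/-!
# Independent sets of generalized Petersen graphs, in terms of two subsets of `ZMod n`
-/

set_option autoImplicit false

namespace Pool.Agent.Q292.GP

open Finset

/-- `A` (outer vertices) and `B` (inner vertices) form an independent set of `P(n,k)` -/
structure Ind {n : ℕ} (k : ZMod n) (A B : Finset (ZMod n)) : Prop where
  outer : ∀ i ∈ A, i + 1 ∉ A
  inner : ∀ i ∈ B, i + k ∉ B
  spoke : ∀ i ∈ A, i ∉ B

section Sign

variable {n : ℕ} (M : ℕ)

/-- floor sequence -/
def fl (n M i : ℕ) : ℕ := (i * M) / n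

theorem fl_add_n (hn : 0 < n) (i : ℕ) : fl n M (i + n) = fl n M i + M := by
  unfold fl
  rw [Nat.add_mul, Nat.mul_comm n M, Nat.add_mul_div_right _ _ hn]

theorem fl_mod (hn : 0 < n) (hM : M % 2 = 0) (i : ℕ) : fl n M (i % n) % 2 = fl n M i % 2 := by
  have key : ∀ q r : ℕ, fl n M (r + n * q) % 2 = fl n M r % 2 := by
    intro q
    induction q with
    | zero => intro r; simp
    | succ q ih =>
        intro r
        have : r + n * (q + 1) = (r + n * q) + n := by ring
        rw [this, fl_add_n M hn, Nat.add_mod, hM]
        have := ih r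
        omega
  have := key (i / n) (i % n)
  rw [Nat.mod_add_div] at this
  exact this.symm

theorem sum_fl (hn : 0 < n) (j : ℕ) :
    ∑ i ∈ range n, (fl n M (i + j) : ℤ) = ∑ i ∈ range n, (fl n M i : ℤ) + j * M := by
  induction j with
  | zero => simp
  | succ j ih =>
      have h1 : ∑ i ∈ range n, (fl n M (i + (j + 1)) : ℤ) + fl n M j =
          ∑ i ∈ range n, (fl n M (i + j) : ℤ) + fl n M (n + j) := by
        have e1 := Finset.sum_range_succ (fun i => (fl n M (i + j) : ℤ)) n
        have e2 := Finset.sum_range_succ' (fun i => (fl n M (i + j) : ℤ)) n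
        simp only [Nat.zero_add] at e2
        rw [e1] at e2
        have e3 : ∑ i ∈ range n, (fl n M (i + 1 + j) : ℤ) = ∑ i ∈ range n, (fl n M (i + (j + 1)) : ℤ) := by
          refine Finset.sum_congr rfl ?_
          intro i _
          rw [show i + 1 + j = i + (j + 1) by ring]
        rw [e3] at e2
        linarith
      have h2 : fl n M (n + j) = fl n M j + M := by rw [Nat.add_comm n j, fl_add_n M hn]
      rw [h2] at h1
      push_cast at h1 ⊢
      rw [ih] at h1
      linarith

theorem one_side (hn : 0 < n) (j : ℕ) (q : ℤ) :
    (∀ i, 0 ≤ (fl n M (i + j) : ℤ) - fl n M i - q) ∨ (∀ i, (fl n M (i + j) : ℤ) - fl n M i - q ≤ 0) := by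
  have h : ∀ i, (fl n M (i + j) = fl n M i + (j * M) / n) ∨
      (fl n M (i + j) = fl n M i + (j * M) / n + 1) := by
    intro i
    unfold fl
    rw [Nat.add_mul, Nat.add_div hn]
    split_ifs
    · right; rfl
    · left; rfl
  rcases le_or_gt q (((j * M) / n : ℕ) : ℤ) with hq | hq
  · left; intro i
    rcases h i with h | h <;> rw [h] <;> push_cast at hq ⊢ <;> linarith
  · right; intro i
    rcases h i with h | h <;> rw [h] <;> push_cast at hq ⊢ <;> linarith

theorem count_eq (hn : 0 < n) (j : ℕ) (q : ℤ) :
    (n : ℤ) - |(j : ℤ) * M - q * n| ≤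
      (((range n).filter fun i => (fl n M (i + j) : ℤ) - fl n M i = q).card : ℤ) := by
  have hsum : ∑ i ∈ range n, ((fl n M (i + j) : ℤ) - fl n M i - q) = j * M - q * n := by
    rw [Finset.sum_sub_distrib, Finset.sum_sub_distrib, sum_fl M hn j]
    simp; ring
  have habs : ∑ i ∈ range n, |(fl n M (i + j) : ℤ) - fl n M i - q| = |(j : ℤ) * M - q * n| := by
    rcases one_side M hn j q with h | h
    · rw [Finset.sum_congr rfl (fun i _ => abs_of_nonneg (h i)), hsum, abs_of_nonneg]
      rw [← hsum]; exact Finset.sum_nonneg fun i _ => h i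
    · rw [Finset.sum_congr rfl (fun i _ => abs_of_nonpos (h i)), Finset.sum_neg_distrib, hsum,
        abs_of_nonpos]
      rw [← hsum]; exact Finset.sum_nonpos fun i _ => h i
  have hne : (((range n).filter fun i => ¬ (fl n M (i + j) : ℤ) - fl n M i = q).card : ℤ) ≤
      ∑ i ∈ range n, |(fl n M (i + j) : ℤ) - fl n M i - q| := by
    rw [Finset.card_eq_sum_ones, Finset.sum_filter]
    push_cast
    refine Finset.sum_le_sum ?_
    intro i _
    split_ifs with h
    · exact abs_nonneg _
    · exact Int.one_le_abs (by intro h0; apply h; linarith)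
  have htot := Finset.card_filter_add_card_filter_not (s := range n)
    (p := fun i => (fl n M (i + j) : ℤ) - fl n M i = q)
  rw [card_range] at htot
  have : ((((range n).filter fun i => (fl n M (i + j) : ℤ) - fl n M i = q).card : ℤ)) +
      (((range n).filter fun i => ¬ (fl n M (i + j) : ℤ) - fl n M i = q).card : ℤ) = n := by
    exact_mod_cast htot
  linarith

/-- the two-valued sequence -/
def sg (n M : ℕ) (i : ZMod n) : ℕ := fl n M i.val % 2

theorem card_ne [NeZero n] (hM : M % 2 = 0) (j q : ℕ) (hq : q % 2 = 1) :
    (n : ℤ) - |(j : ℤ) * M - q * n| ≤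
      (((univ : Finset (ZMod n)).filter fun i => sg n M i ≠ sg n M (i + (j : ZMod n))).card : ℤ) := by
  have hn : 0 < n := Nat.pos_of_ne_zero (NeZero.ne n)
  refine le_trans (count_eq M hn j q) ?_
  have : ((range n).filter fun i => (fl n M (i + j) : ℤ) - fl n M i = (q : ℤ)).card ≤
      ((univ : Finset (ZMod n)).filter fun i => sg n M i ≠ sg n M (i + (j : ZMod n))).card := by
    refine Finset.card_le_card_of_injOn (fun i => (i : ZMod n)) ?_ ?_
    · intro i hi
      rw [Finset.mem_coe, mem_filter, mem_range] at hi
      rw [Finset.mem_coe, mem_filter]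
      refine ⟨mem_univ _, ?_⟩
      have e1 : (i : ZMod n).val = i % n := ZMod.val_natCast n i
      have e2 : ((i : ZMod n) + (j : ZMod n)).val = (i + j) % n := by
        rw [← Nat.cast_add, ZMod.val_natCast]
      unfold sg
      rw [e1, e2, fl_mod M hn hM, fl_mod M hn hM]
      have h2 := hi.2
      omega
    · intro a ha b hb hab
      rw [Finset.mem_coe, mem_filter, mem_range] at ha hb
      have h1 := congrArg ZMod.val hab
      simp only [ZMod.val_natCast] at h1
      rw [Nat.mod_eq_of_lt ha.1, Nat.mod_eq_of_lt hb.1] at h1
      exact h1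
  exact_mod_cast this

theorem sign_ind [NeZero n] (k : ℕ) (hMn : M ≤ n) (hM : M % 2 = 0) (q : ℕ) (hq : q % 2 = 1)
    (hF : ((n : ℤ) - M) + |(k : ℤ) * M - q * n| ≤ 2 * (((n + 4) / 5 : ℕ) : ℤ)) :
    ∃ A B : Finset (ZMod n), Ind (k : ZMod n) A B ∧ 4 * n / 5 ≤ A.card + B.card := by
  classical
  let A : ℕ → Finset (ZMod n) := fun s =>
    univ.filter fun i => sg n M i = s ∧ sg n M i ≠ sg n M (i + 1)
  let B : ℕ → Finset (ZMod n) := fun s =>
    univ.filter fun i => sg n M i ≠ s ∧ sg n M i ≠ sg n M (i + (k : ZMod n))
  have h2 : ∀ i, sg n M i = 0 ∨ sg n M i = 1 := fun i => by unfold sg; omega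
  have hInd : ∀ s, s = 0 ∨ s = 1 → Ind (k : ZMod n) (A s) (B s) := by
    intro s hs
    constructor
    · intro i hi hi'
      simp only [A, mem_filter, mem_univ, true_and] at hi hi'
      exact hi.2 (hi.1.trans hi'.1.symm)
    · intro i hi hi'
      simp only [B, mem_filter, mem_univ, true_and] at hi hi'
      have := h2 i; have := h2 (i + k)
      omega
    · intro i hi hi'
      simp only [A, B, mem_filter, mem_univ, true_and] at hi hi'
      exact hi'.1 hi.1
  have hA : (A 0).card + (A 1).card = (univ.filter fun i => sg n M i ≠ sg n M (i + 1)).card := by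
    rw [← Finset.card_union_of_disjoint]
    · congr 1
      ext i
      simp only [A, mem_union, mem_filter, mem_univ, true_and]
      have := h2 i
      omega
    · rw [Finset.disjoint_left]
      intro i hi hi'
      simp only [A, mem_filter, mem_univ, true_and] at hi hi'
      omega
  have hB : (B 0).card + (B 1).card =
      (univ.filter fun i => sg n M i ≠ sg n M (i + (k : ZMod n))).card := by
    rw [← Finset.card_union_of_disjoint]
    · congr 1
      ext i
      simp only [B, mem_union, mem_filter, mem_univ, true_and]
      have := h2 i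
      omega
    · rw [Finset.disjoint_left]
      intro i hi hi'
      simp only [B, mem_filter, mem_univ, true_and] at hi hi'
      have := h2 i
      omega
  have c1 := card_ne (n := n) M hM 1 1 (by norm_num)
  have c2 := card_ne (n := n) M hM k q hq
  have e1 : |((1 : ℕ) : ℤ) * M - ((1 : ℕ) : ℤ) * n| = n - M := by
    rw [abs_of_nonpos] <;> push_cast <;> omega
  rw [e1] at c1
  simp only [Nat.cast_one] at c1
  rw [← hA] at c1
  rw [← hB] at c2
  have htot : 2 * (4 * n / 5) ≤ (A 0).card + (A 1).card + ((B 0).card + (B 1).card) := by
    push_cast at c1 c2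
    omega
  rcases le_total (4 * n / 5) ((A 0).card + (B 0).card) with h | h
  · exact ⟨A 0, B 0, hInd 0 (Or.inl rfl), h⟩
  · exact ⟨A 1, B 1, hInd 1 (Or.inr rfl), by omega⟩

end Sign

section Two

/-- outer vertices for `k = 2` -/
def pu (n i : ℕ) : Bool :=
  (i % 5 = 0 || i % 5 = 2) &&
    (i < n / 5 * 5 || (i = n / 5 * 5 && 2 ≤ n % 5) || (i = n / 5 * 5 + 2 && n % 5 = 4))

/-- inner vertices for `k = 2` -/
def pv (n i : ℕ) : Bool :=
  ((i % 5 = 3 || i % 5 = 4) && i < n / 5 * 5) || (i = n / 5 * 5 + 2 && n % 5 = 3) ||
    (i = n / 5 * 5 + 3 && n % 5 = 4)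

theorem two_ind {n : ℕ} [NeZero n] (hn : 5 ≤ n) :
    ∃ A B : Finset (ZMod n), Ind (2 : ZMod n) A B ∧ 4 * n / 5 ≤ A.card + B.card := by
  classical
  have hval : ∀ (i : ZMod n) (j : ℕ), (i + (j : ZMod n)).val = (i.val + j) % n := by
    intro i j
    rw [ZMod.val_add, ZMod.val_natCast, Nat.add_mod_mod]
  have hlt : ∀ i : ZMod n, i.val < n := fun i => ZMod.val_lt i
  refine ⟨univ.filter fun i => pu n i.val = true, univ.filter fun i => pv n i.val = true, ?_, ?_⟩
  · constructor
    · intro i hi hi'
      simp only [mem_filter, mem_univ, true_and] at hi hi'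
      have e := hval i 1
      rw [Nat.cast_one] at e
      rw [e] at hi'
      have h1 := hlt i
      unfold pu at hi hi'
      simp only [Bool.and_eq_true, Bool.or_eq_true, decide_eq_true_eq] at hi hi'
      rcases Nat.lt_or_ge (i.val + 1) n with h | h
      · rw [Nat.mod_eq_of_lt h] at hi'
        omega
      · have : i.val + 1 = n := by omega
        rw [this, Nat.mod_self] at hi'
        omega
    · intro i hi hi'
      simp only [mem_filter, mem_univ, true_and] at hi hi'
      have e := hval i 2
      rw [Nat.cast_ofNat] at e
      rw [e] at hi'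
      have h1 := hlt i
      unfold pv at hi hi'
      simp only [Bool.and_eq_true, Bool.or_eq_true, decide_eq_true_eq] at hi hi'
      rcases Nat.lt_or_ge (i.val + 2) n with h | h
      · rw [Nat.mod_eq_of_lt h] at hi'
        omega
      · have : (i.val + 2) % n = i.val + 2 - n := by
          rw [Nat.mod_eq_sub_mod h, Nat.mod_eq_of_lt (by omega)]
        rw [this] at hi'
        omega
    · intro i hi hi'
      simp only [mem_filter, mem_univ, true_and] at hi hi'
      unfold pu at hi
      unfold pv at hi'
      simp only [Bool.and_eq_true, Bool.or_eq_true, decide_eq_true_eq] at hi hi'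
      omega
  · -- count
    have hrange : ∀ p : ℕ → Bool, ((range n).filter fun i => p i = true).card ≤
        ((univ : Finset (ZMod n)).filter fun i => p i.val = true).card := by
      intro p
      refine Finset.card_le_card_of_injOn (fun i => (i : ZMod n)) ?_ ?_
      · intro i hi
        rw [Finset.mem_coe, mem_filter, mem_range] at hi
        rw [Finset.mem_coe, mem_filter]
        refine ⟨mem_univ _, ?_⟩
        simp only [ZMod.val_natCast]
        rw [Nat.mod_eq_of_lt hi.1]; exact hi.2
      · intro a ha b hb hab
        rw [Finset.mem_coe, mem_filter, mem_range] at ha hb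
        have h1 := congrArg ZMod.val hab
        simp only [ZMod.val_natCast] at h1
        rw [Nat.mod_eq_of_lt ha.1, Nat.mod_eq_of_lt hb.1] at h1
        exact h1
    refine le_trans ?_ (Nat.add_le_add (hrange (pu n)) (hrange (pv n)))
    have hblock : ∀ q : ℕ, q ≤ n / 5 → 4 * q ≤ ((range (5 * q)).filter fun i => pu n i = true).card +
        ((range (5 * q)).filter fun i => pv n i = true).card := by
      intro q
      induction q with
      | zero => intro _; simp
      | succ q ih =>
          intro hq
          have hih := ih (by omega)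
          have e5 : 5 * (q + 1) = 5 * q + 1 + 1 + 1 + 1 + 1 := by ring
          rw [e5]
          simp only [Finset.range_add_one, Finset.filter_insert]
          have a0 : pu n (5 * q) = true := by
            unfold pu; simp only [Bool.and_eq_true, Bool.or_eq_true, decide_eq_true_eq]; omega
          have a2 : pu n (5 * q + 1 + 1) = true := by
            unfold pu; simp only [Bool.and_eq_true, Bool.or_eq_true, decide_eq_true_eq]; omega
          have b3 : pv n (5 * q + 1 + 1 + 1) = true := by
            unfold pv; simp only [Bool.and_eq_true, Bool.or_eq_true, decide_eq_true_eq]; omega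
          have b4 : pv n (5 * q + 1 + 1 + 1 + 1) = true := by
            unfold pv; simp only [Bool.and_eq_true, Bool.or_eq_true, decide_eq_true_eq]; omega
          have a1 : ¬ pu n (5 * q + 1) = true := by
            unfold pu; simp only [Bool.and_eq_true, Bool.or_eq_true, decide_eq_true_eq]; omega
          have a3 : ¬ pu n (5 * q + 1 + 1 + 1) = true := by
            unfold pu; simp only [Bool.and_eq_true, Bool.or_eq_true, decide_eq_true_eq]; omega
          have a4 : ¬ pu n (5 * q + 1 + 1 + 1 + 1) = true := by
            unfold pu; simp only [Bool.and_eq_true, Bool.or_eq_true, decide_eq_true_eq]; omega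
          have b0 : ¬ pv n (5 * q) = true := by
            unfold pv; simp only [Bool.and_eq_true, Bool.or_eq_true, decide_eq_true_eq]; omega
          have b1 : ¬ pv n (5 * q + 1) = true := by
            unfold pv; simp only [Bool.and_eq_true, Bool.or_eq_true, decide_eq_true_eq]; omega
          have b2 : ¬ pv n (5 * q + 1 + 1) = true := by
            unfold pv; simp only [Bool.and_eq_true, Bool.or_eq_true, decide_eq_true_eq]; omega
          rw [if_pos a0, if_pos a2, if_pos b3, if_pos b4, if_neg a1, if_neg a3, if_neg a4, if_neg b0,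
            if_neg b1, if_neg b2]
          rw [card_insert_of_notMem, card_insert_of_notMem, card_insert_of_notMem,
            card_insert_of_notMem]
          · omega
          all_goals simp
    have hb := hblock (n / 5) (le_refl _)
    have hsplit : ∀ p : ℕ → Bool, ∀ r : ℕ, ((range (5 * (n / 5) + r)).filter fun i => p i = true).card =
        ((range (5 * (n / 5))).filter fun i => p i = true).card +
        ((range r).filter fun i => p (5 * (n / 5) + i) = true).card := by
      intro p r
      induction r with
      | zero => simp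
      | succ r ih =>
          rw [← Nat.add_assoc, Finset.range_add_one, Finset.range_add_one, Finset.filter_insert,
            Finset.filter_insert]
          split_ifs
          · rw [card_insert_of_notMem (by simp), card_insert_of_notMem (by simp), ih]; omega
          · exact ih
    have hnn : n = 5 * (n / 5) + n % 5 := (Nat.div_add_mod n 5).symm
    have hu := hsplit (pu n) (n % 5)
    have hv := hsplit (pv n) (n % 5)
    rw [← hnn] at hu hv
    rw [hu, hv]
    have hr : n % 5 = 0 ∨ n % 5 = 1 ∨ n % 5 = 2 ∨ n % 5 = 3 ∨ n % 5 = 4 := by omega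
    have hextra : 4 * (n % 5) / 5 ≤ ((range (n % 5)).filter fun i => pu n (5 * (n / 5) + i) = true).card +
        ((range (n % 5)).filter fun i => pv n (5 * (n / 5) + i) = true).card := by
      have hu0 : 2 ≤ n % 5 → pu n (5 * (n / 5) + 0) = true := by
        intro h; unfold pu; simp only [Bool.and_eq_true, Bool.or_eq_true, decide_eq_true_eq]; omega
      have hu2 : n % 5 = 4 → pu n (5 * (n / 5) + 2) = true := by
        intro h; unfold pu; simp only [Bool.and_eq_true, Bool.or_eq_true, decide_eq_true_eq]; omega
      have hv2 : n % 5 = 3 → pv n (5 * (n / 5) + 2) = true := by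
        intro h; unfold pv; simp only [Bool.and_eq_true, Bool.or_eq_true, decide_eq_true_eq]; omega
      have hv3 : n % 5 = 4 → pv n (5 * (n / 5) + 3) = true := by
        intro h; unfold pv; simp only [Bool.and_eq_true, Bool.or_eq_true, decide_eq_true_eq]; omega
      rcases hr with h | h | h | h | h
      · rw [h]; simp
      · rw [h]; simp
      · have h0 := hu0 (by omega)
        rw [h]
        have : ({0} : Finset ℕ) ⊆ (range 2).filter fun i => pu n (5 * (n / 5) + i) = true := by
          intro x hx; rw [mem_singleton] at hx; subst hx; rw [mem_filter]; exact ⟨by simp, h0⟩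
        have := card_le_card this
        rw [card_singleton] at this; omega
      · have h0 := hu0 (by omega)
        have h1 := hv2 h
        rw [h]
        have t1 : ({0} : Finset ℕ) ⊆ (range 3).filter fun i => pu n (5 * (n / 5) + i) = true := by
          intro x hx; rw [mem_singleton] at hx; subst hx; rw [mem_filter]; exact ⟨by simp, h0⟩
        have t2 : ({2} : Finset ℕ) ⊆ (range 3).filter fun i => pv n (5 * (n / 5) + i) = true := by
          intro x hx; rw [mem_singleton] at hx; subst hx; rw [mem_filter]; exact ⟨by simp, h1⟩
        have t1' := card_le_card t1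
        have t2' := card_le_card t2
        rw [card_singleton] at t1' t2'; omega
      · have h0 := hu0 (by omega)
        have h2 := hu2 h
        have h3 := hv3 h
        rw [h]
        have t1 : ({0, 2} : Finset ℕ) ⊆ (range 4).filter fun i => pu n (5 * (n / 5) + i) = true := by
          intro x hx
          simp only [mem_insert, mem_singleton] at hx
          rw [mem_filter]
          rcases hx with hx | hx
          · subst hx; exact ⟨by simp, h0⟩
          · subst hx; exact ⟨by simp, h2⟩
        have t2 : ({3} : Finset ℕ) ⊆ (range 4).filter fun i => pv n (5 * (n / 5) + i) = true := by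
          intro x hx; rw [mem_singleton] at hx; subst hx; rw [mem_filter]; exact ⟨by simp, h3⟩
        have t1' := card_le_card t1
        have t2' := card_le_card t2
        rw [card_singleton] at t2'
        rw [card_pair (by norm_num)] at t1'
        omega
    omega

end Two

theorem half_ind {n k : ℕ} [NeZero n] (hn : 5 ≤ n) (hk : 2 * k + 1 = n) :
    ∃ A B : Finset (ZMod n), Ind (k : ZMod n) A B ∧ 4 * n / 5 ≤ A.card + B.card := by
  classical
  obtain ⟨A, B, hI, hc⟩ := two_ind (n := n) hn
  have hk2 : 2 * (k : ZMod n) = -1 := by
    have : ((2 * k + 1 : ℕ) : ZMod n) = 0 := by rw [hk]; exact ZMod.natCast_self n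
    push_cast at this
    linear_combination this
  have hcard : ∀ S : Finset (ZMod n), S.card = (univ.filter fun j : ZMod n => -2 * j ∈ S).card := by
    intro S
    refine Finset.card_nbij' (fun i => (k : ZMod n) * i) (fun j => -2 * j) ?_ ?_ ?_ ?_
    · intro i hi
      rw [Finset.mem_coe, mem_filter]
      refine ⟨mem_univ _, ?_⟩
      have : -2 * ((k : ZMod n) * i) = i := by linear_combination (-i) * hk2
      rw [this]; exact hi
    · intro j hj
      rw [Finset.mem_coe, mem_filter] at hj
      exact hj.2
    · intro i _
      show -2 * ((k : ZMod n) * i) = i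
      linear_combination (-i) * hk2
    · intro j _
      show (k : ZMod n) * (-2 * j) = j
      linear_combination (-j) * hk2
  refine ⟨univ.filter fun j => -2 * j ∈ B, univ.filter fun j => -2 * j ∈ A, ?_, ?_⟩
  · constructor
    · intro i hi hi'
      simp only [mem_filter, mem_univ, true_and] at hi hi'
      have h := hI.inner _ hi'
      apply h
      have : -2 * (i + 1) + 2 = -2 * i := by ring
      rw [this]; exact hi
    · intro i hi hi'
      simp only [mem_filter, mem_univ, true_and] at hi hi'
      have h := hI.outer _ hi
      apply h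
      have : -2 * (i + (k : ZMod n)) = -2 * i + 1 := by linear_combination (-1 : ZMod n) * hk2
      rw [← this]; exact hi'
    · intro i hi hi'
      simp only [mem_filter, mem_univ, true_and] at hi hi'
      exact hI.spoke _ hi' hi
  · rw [← hcard B, ← hcard A]; omega

/-- All generalized Petersen graphs have an independent set of size `⌊4n/5⌋`. -/
theorem exists_ind {n k : ℕ} [NeZero n] (hn : 3 ≤ n) (hk : 1 ≤ k) (h2 : 2 * k < n) :
    ∃ A B : Finset (ZMod n), Ind (k : ZMod n) A B ∧ 4 * n / 5 ≤ A.card + B.card := by
  by_cases hk2 : k = 2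
  · subst hk2
    obtain ⟨A, B, h, hc⟩ := two_ind (n := n) (by omega)
    exact ⟨A, B, by simpa using h, hc⟩
  · by_cases hkn : 2 * k + 1 = n
    · by_cases h5 : 5 ≤ n
      · exact half_ind h5 hkn
      · -- `n = 3`, `k = 1`
        have hn3 : n = 3 := by omega
        have hk1 : k = 1 := by omega
        subst hn3; subst hk1
        refine ⟨{0}, {1}, ?_, by decide⟩
        constructor <;> decide
    · obtain ⟨M, q, hMn, hM, hq, hF⟩ := good hn hk h2 hk2 hkn
      exact sign_ind M k hMn hM q hq hF

end Pool.Agent.Q292.GP
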