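import Mathlib.Tactic
import Mathlib.Data.ZMod.Basic

/-!
# Arithmetic and counting for generalized Petersen graphs
-/

set_option autoImplicit false

namespace Pool.Agent.Q292.GP

/-- The condition on the slope `M` (even) and the odd number `q`. -/
def Good (n k : ℕ) : Prop :=
  ∃ M q : ℕ, M ≤ n ∧ M % 2 = 0 ∧ q % 2 = 1 ∧
    ((n : ℤ) - M) + |(k : ℤ) * M - q * n| ≤ 2 * (((n + 4) / 5 : ℕ) : ℤ)

instance (n k a b : ℕ) : Decidable (∃ M ∈ List.range a, ∃ q ∈ List.range b, M % 2 = 0 ∧ q % 2 = 1 ∧
    (n - M) + (k * M - q * n) + (q * n - k * M) ≤ 2 * ((n + 4) / 5)) := by infer_instance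

theorem small : ∀ n ∈ List.range 40, ∀ k ∈ List.range 20, 3 ≤ n → 1 ≤ k → 2 * k < n → k ≠ 2 →
    2 * k + 1 ≠ n → ∃ M ∈ List.range (n + 1), ∃ q ∈ List.range (k + 2), M % 2 = 0 ∧ q % 2 = 1 ∧
      (n - M) + (k * M - q * n) + (q * n - k * M) ≤ 2 * ((n + 4) / 5) := by
  decide +kernel

theorem good_of_t {n k : ℕ} (t p : ℕ) (ht : t ≤ n) (htn : (n + t) % 2 = 0) (hp : p ≤ k)
    (hpk : (k + p) % 2 = 1) (h : 5 * ((t : ℤ) + |(k : ℤ) * t - p * n|) ≤ 2 * n) : Good n k := by
  refine ⟨n - t, k - p, by omega, by omega, by omega, ?_⟩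
  have h1 : ((n - t : ℕ) : ℤ) = n - t := by omega
  have h2 : ((k - p : ℕ) : ℤ) = k - p := by omega
  rw [h1, h2]
  have h3 : (k : ℤ) * (n - t) - (k - p) * n = -((k : ℤ) * t - p * n) := by ring
  rw [h3, abs_neg]
  have h4 : (n : ℤ) ≤ 5 * (((n + 4) / 5 : ℕ) : ℤ) := by omega
  linarith

theorem good_large {n k : ℕ} (hn : 40 ≤ n) (hk : 1 ≤ k) (h2 : 2 * k < n) (hk2 : k ≠ 2)
    (hkn : 2 * k + 1 ≠ n) : Good n k := by
  rcases Nat.even_or_odd' k with ⟨k', hk' | hk'⟩
  · -- `k` even
    have hk4 : 4 ≤ k := by omega
    have nearby : ∀ t : ℕ, (n + t) % 2 = 0 → |(k : ℤ) * t - n| ≤ k →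
        (5 * (k : ℤ) * k + 5 * k + 5 * n ≤ 2 * n * k) → Good n k := by
      intro t ht1 ht2 ht3
      have ht4 : (k : ℤ) * t ≤ n + k := by have := (abs_le.1 ht2).2; linarith
      have hkz : (4 : ℤ) ≤ k := by exact_mod_cast hk4
      have htn : t ≤ n := by
        have : (4 : ℤ) * t ≤ n + k := by nlinarith
        omega
      refine good_of_t t 1 htn ht1 (by omega) (by omega) ?_
      have h5 : (t : ℤ) + |(k : ℤ) * t - (1 : ℕ) * n| ≤ t + k := by
        have : (k : ℤ) * t - (1 : ℕ) * n = k * t - n := by push_cast; ring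
        rw [this]; linarith
      have h6 : (k : ℤ) * (5 * (t + k)) ≤ k * (2 * n) := by nlinarith
      have h7 : 5 * ((t : ℤ) + k) ≤ 2 * n := le_of_mul_le_mul_left h6 (by linarith)
      linarith
    have near_exists : ∃ t : ℕ, (n + t) % 2 = 0 ∧ |(k : ℤ) * t - n| ≤ k := by
      have hdm := Nat.div_add_mod n k
      have hlt : n % k < k := Nat.mod_lt _ (by omega)
      by_cases hpar : (n + n / k) % 2 = 0
      · refine ⟨n / k, hpar, ?_⟩
        rw [abs_le]
        have : (k : ℤ) * ((n / k : ℕ) : ℤ) + ((n % k : ℕ) : ℤ) = n := by exact_mod_cast hdm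
        constructor <;> omega
      · refine ⟨n / k + 1, by omega, ?_⟩
        rw [abs_le]
        have : (k : ℤ) * ((n / k : ℕ) : ℤ) + ((n % k : ℕ) : ℤ) = n := by exact_mod_cast hdm
        push_cast
        push_cast at this
        have e : (k : ℤ) * ((n : ℤ) / k + 1) = k * ((n : ℤ) / k) + k := by ring
        rw [e]
        constructor <;> omega
    rcases Nat.even_or_odd' n with ⟨n', hn' | hn'⟩
    · -- `n` even
      by_cases hD1 : 5 * (n - 2 * k + 2) ≤ 2 * n
      · refine good_of_t 2 1 (by omega) (by omega) (by omega) (by omega) ?_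
        have : |(k : ℤ) * (2 : ℕ) - (1 : ℕ) * n| = n - 2 * k := by
          rw [abs_of_nonpos] <;> push_cast <;> omega
        rw [this]; omega
      · by_cases hD2 : 10 * (n - 2 * k) + 20 ≤ 7 * n
        · refine good_of_t 4 1 (by omega) (by omega) (by omega) (by omega) ?_
          have : |(k : ℤ) * (4 : ℕ) - (1 : ℕ) * n| ≤ ((2 * n - 20 : ℤ)) / 5 := by
            rw [abs_le]; constructor <;> push_cast <;> omega
          have h8 : ((2 * n - 20 : ℤ)) / 5 * 5 ≤ 2 * n - 20 := Int.ediv_mul_le _ (by norm_num)
          push_cast at this ⊢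
          linarith
        · obtain ⟨t, ht1, ht2⟩ := near_exists
          refine nearby t ht1 ht2 ?_
          have hkz : (4 : ℤ) ≤ k := by exact_mod_cast hk4
          have h9 : (20 : ℤ) * k < 3 * n + 20 := by omega
          have hnz : (40 : ℤ) ≤ n := by exact_mod_cast hn
          by_cases hk6 : k = 4
          · subst hk6; push_cast; linarith
          · have hk6' : (6 : ℤ) ≤ k := by omega
            nlinarith
    · -- `n` odd
      obtain ⟨c, hc⟩ : ∃ c, n = 2 * k + c := ⟨n - 2 * k, by omega⟩
      have hc3 : 3 ≤ c := by omega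
      by_cases hC1 : 15 * (c - 2) < n
      · -- `t ≡ 3 mod 4`
        obtain ⟨d, hd⟩ : ∃ d, c = d + 2 := ⟨c - 2, by omega⟩
        have hd1 : 1 ≤ d := by omega
        -- smallest `t ≡ 3 mod 4` with `n ≤ 5 d t`
        have hex : ∃ s : ℕ, n ≤ 5 * d * (4 * s + 3) := ⟨n, by nlinarith⟩
        classical
        let s := Nat.find hex
        have hs : n ≤ 5 * d * (4 * s + 3) := Nat.find_spec hex
        have hup : 5 * d * (4 * s + 3) < n + 20 * d ∨ s = 0 := by
          rcases Nat.eq_zero_or_pos s with h0 | hpos
          · right; exact h0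
          · left
            have := Nat.find_min hex (m := s - 1) (by omega)
            push Not at this
            obtain ⟨s', hs'⟩ : ∃ s', s = s' + 1 := ⟨s - 1, by omega⟩
            rw [hs'] at this ⊢
            simp only [Nat.add_sub_cancel] at this
            nlinarith
        have hup' : 5 * (c + 2) * (4 * s + 3) ≤ 9 * n := by
          rcases hup with hup | h0
          · -- general
            have hnd : 15 * d < n := by omega
            have key : (d : ℤ) * (5 * (c + 2) * (4 * s + 3)) ≤ d * (9 * n) := by
              have e1 : (d : ℤ) * (5 * (c + 2) * (4 * s + 3)) = (c + 2) * (5 * d * (4 * s + 3)) := by ring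
              rw [e1]
              have hupz : (5 : ℤ) * d * (4 * s + 3) ≤ n + 20 * d - 1 := by
                have : (5 : ℤ) * d * (4 * s + 3) < n + 20 * d := by exact_mod_cast hup
                linarith
              have hcz : (c : ℤ) = d + 2 := by exact_mod_cast hd
              have hdz : (1 : ℤ) ≤ d := by exact_mod_cast hd1
              have hndz : (15 : ℤ) * d < n := by exact_mod_cast hnd
              have hnz : (40 : ℤ) ≤ n := by exact_mod_cast hn
              have h10 : ((c : ℤ) + 2) * (5 * d * (4 * s + 3)) ≤ (c + 2) * (n + 20 * d - 1) :=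
                mul_le_mul_of_nonneg_left hupz (by linarith)
              refine le_trans h10 ?_
              rw [hcz]
              by_cases hd1' : d = 1
              · subst hd1'; push_cast; linarith
              · have hd3 : (3 : ℤ) ≤ d := by omega
                nlinarith
            have := le_of_mul_le_mul_left key (by exact_mod_cast hd1)
            exact_mod_cast this
          · rw [h0]; rw [hd]; omega
        have htn : 4 * s + 3 ≤ n := by nlinarith
        refine good_of_t (4 * s + 3) (2 * s + 1) htn (by omega) ?_ (by omega) ?_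
        · -- `2 s + 1 ≤ k`
          have : 25 * (4 * s + 3) ≤ 9 * n := by nlinarith
          omega
        · have e2 : 2 * ((k : ℤ) * ((4 * s + 3 : ℕ) : ℤ) - ((2 * s + 1 : ℕ) : ℤ) * n) =
              n - c * (4 * s + 3) := by
            have : (n : ℤ) = 2 * k + c := by exact_mod_cast hc
            push_cast; rw [this]; ring
          have h11 : 2 * |(k : ℤ) * ((4 * s + 3 : ℕ) : ℤ) - ((2 * s + 1 : ℕ) : ℤ) * n| =
              |(n : ℤ) - c * (4 * s + 3)| := by
            rw [← e2, abs_mul]; norm_num
          have hsz : (n : ℤ) ≤ 5 * d * (4 * s + 3) := by exact_mod_cast hs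
          have hupz : (5 : ℤ) * (c + 2) * (4 * s + 3) ≤ 9 * n := by exact_mod_cast hup'
          have hcz : (c : ℤ) = d + 2 := by exact_mod_cast hd
          have h12 : 5 * |(n : ℤ) - c * (4 * s + 3)| ≤ 4 * n - 10 * (4 * s + 3) := by
            have : |5 * ((n : ℤ) - c * (4 * s + 3))| ≤ 4 * n - 10 * (4 * s + 3) := by
              rw [abs_le]; constructor
              · nlinarith
              · rw [hcz]; nlinarith
            rw [abs_mul] at this; norm_num at this; exact this
          push_cast at h11 h12 ⊢
          linarith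
      · by_cases hC2 : 5 * c + 10 ≤ 3 * n
        · refine good_of_t 3 1 (by omega) (by omega) (by omega) (by omega) ?_
          have : |(k : ℤ) * (3 : ℕ) - (1 : ℕ) * n| ≤ ((2 * n - 15 : ℤ)) / 5 := by
            rw [abs_le]; constructor <;> push_cast <;> omega
          have h8 : ((2 * n - 15 : ℤ)) / 5 * 5 ≤ 2 * n - 15 := Int.ediv_mul_le _ (by norm_num)
          push_cast at this ⊢
          linarith
        · obtain ⟨t, ht1, ht2⟩ := near_exists
          refine nearby t ht1 ht2 ?_
          have hkz : (4 : ℤ) ≤ k := by exact_mod_cast hk4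
          have h9 : (5 : ℤ) * k < n + 5 := by omega
          have hnz : (40 : ℤ) ≤ n := by exact_mod_cast hn
          by_cases hk6 : k = 4
          · subst hk6; push_cast; linarith
          · by_cases hk8 : k = 6
            · subst hk8; push_cast; linarith
            · have hk8' : (8 : ℤ) ≤ k := by omega
              nlinarith
  · -- `k` odd
    rcases Nat.even_or_odd' n with ⟨n', hn' | hn'⟩
    · refine good_of_t 0 0 (by omega) (by omega) (by omega) (by omega) ?_
      simp
    · obtain ⟨c, hc⟩ : ∃ c, n = 2 * k + c := ⟨n - 2 * k, by omega⟩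
      have hc3 : 3 ≤ c := by omega
      by_cases hB1 : n ≤ 5 * (c - 2)
      · refine good_of_t 1 0 (by omega) (by omega) (by omega) (by omega) ?_
        have : |(k : ℤ) * (1 : ℕ) - (0 : ℕ) * n| = k := by
          rw [abs_of_nonneg] <;> push_cast <;> omega
        rw [this]; omega
      · by_cases hB2 : n ≤ 25 * (c - 2)
        · refine good_of_t 5 2 (by omega) (by omega) (by omega) (by omega) ?_
          have : |(k : ℤ) * (5 : ℕ) - (2 : ℕ) * n| ≤ ((2 * n - 25 : ℤ)) / 5 := by
            rw [abs_le]; constructor <;> push_cast <;> omega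
          have h8 : ((2 * n - 25 : ℤ)) / 5 * 5 ≤ 2 * n - 25 := Int.ediv_mul_le _ (by norm_num)
          push_cast at this ⊢
          linarith
        · obtain ⟨d, hd⟩ : ∃ d, c = d + 2 := ⟨c - 2, by omega⟩
          have hd1 : 1 ≤ d := by omega
          have hex : ∃ s : ℕ, n ≤ 5 * d * (4 * s + 1) := ⟨n, by nlinarith⟩
          classical
          let s := Nat.find hex
          have hs : n ≤ 5 * d * (4 * s + 1) := Nat.find_spec hex
          have hup : 5 * d * (4 * s + 1) < n + 20 * d ∨ s = 0 := by
            rcases Nat.eq_zero_or_pos s with h0 | hpos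
            · right; exact h0
            · left
              have := Nat.find_min hex (m := s - 1) (by omega)
              push Not at this
              obtain ⟨s', hs'⟩ : ∃ s', s = s' + 1 := ⟨s - 1, by omega⟩
              rw [hs'] at this ⊢
              simp only [Nat.add_sub_cancel] at this
              nlinarith
          have hup' : 5 * (c + 2) * (4 * s + 1) ≤ 9 * n := by
            rcases hup with hup | h0
            · have hnd : 25 * d < n := by omega
              have key : (d : ℤ) * (5 * (c + 2) * (4 * s + 1)) ≤ d * (9 * n) := by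
                have e1 : (d : ℤ) * (5 * (c + 2) * (4 * s + 1)) = (c + 2) * (5 * d * (4 * s + 1)) := by
                  ring
                rw [e1]
                have hupz : (5 : ℤ) * d * (4 * s + 1) ≤ n + 20 * d - 1 := by
                  have : (5 : ℤ) * d * (4 * s + 1) < n + 20 * d := by exact_mod_cast hup
                  linarith
                have hcz : (c : ℤ) = d + 2 := by exact_mod_cast hd
                have hdz : (1 : ℤ) ≤ d := by exact_mod_cast hd1
                have hndz : (25 : ℤ) * d < n := by exact_mod_cast hnd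
                have hnz : (40 : ℤ) ≤ n := by exact_mod_cast hn
                have h10 : ((c : ℤ) + 2) * (5 * d * (4 * s + 1)) ≤ (c + 2) * (n + 20 * d - 1) :=
                  mul_le_mul_of_nonneg_left hupz (by linarith)
                refine le_trans h10 ?_
                rw [hcz]
                nlinarith
              have := le_of_mul_le_mul_left key (by exact_mod_cast hd1)
              exact_mod_cast this
            · rw [h0]; rw [hd]; omega
          have htn : 4 * s + 1 ≤ n := by nlinarith
          refine good_of_t (4 * s + 1) (2 * s) htn (by omega) ?_ (by omega) ?_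
          · have : 25 * (4 * s + 1) ≤ 9 * n := by nlinarith
            omega
          · have e2 : 2 * ((k : ℤ) * ((4 * s + 1 : ℕ) : ℤ) - ((2 * s : ℕ) : ℤ) * n) =
                n - c * (4 * s + 1) := by
              have : (n : ℤ) = 2 * k + c := by exact_mod_cast hc
              push_cast; rw [this]; ring
            have h11 : 2 * |(k : ℤ) * ((4 * s + 1 : ℕ) : ℤ) - ((2 * s : ℕ) : ℤ) * n| =
                |(n : ℤ) - c * (4 * s + 1)| := by
              rw [← e2, abs_mul]; norm_num
            have hsz : (n : ℤ) ≤ 5 * d * (4 * s + 1) := by exact_mod_cast hs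
            have hupz : (5 : ℤ) * (c + 2) * (4 * s + 1) ≤ 9 * n := by exact_mod_cast hup'
            have hcz : (c : ℤ) = d + 2 := by exact_mod_cast hd
            have h12 : 5 * |(n : ℤ) - c * (4 * s + 1)| ≤ 4 * n - 10 * (4 * s + 1) := by
              have : |5 * ((n : ℤ) - c * (4 * s + 1))| ≤ 4 * n - 10 * (4 * s + 1) := by
                rw [abs_le]; constructor
                · nlinarith
                · rw [hcz]; nlinarith
              rw [abs_mul] at this; norm_num at this; exact this
            push_cast at h11 h12 ⊢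
            linarith

theorem good {n k : ℕ} (hn : 3 ≤ n) (hk : 1 ≤ k) (h2 : 2 * k < n) (hk2 : k ≠ 2)
    (hkn : 2 * k + 1 ≠ n) : Good n k := by
  by_cases h : 40 ≤ n
  · exact good_large h hk h2 hk2 hkn
  · obtain ⟨M, hM, q, hq, h3, h4, h5⟩ := small n (List.mem_range.2 (by omega)) k
      (List.mem_range.2 (by omega)) hn hk h2 hk2 hkn
    rw [List.mem_range] at hM
    refine ⟨M, q, by omega, h3, h4, ?_⟩
    have h6 : |(k : ℤ) * M - q * n| ≤ (((k * M - q * n) + (q * n - k * M) : ℕ) : ℤ) := by
      have e1 : (k : ℤ) * M = ((k * M : ℕ) : ℤ) := by push_cast; ring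
      have e2 : (q : ℤ) * n = ((q * n : ℕ) : ℤ) := by push_cast; ring
      rw [e1, e2]
      generalize k * M = a
      generalize q * n = b
      rw [abs_le]; constructor <;> omega
    have h7 : (n : ℤ) - M = ((n - M : ℕ) : ℤ) := by omega
    rw [h7]
    have h8 : (((n - M) + (k * M - q * n) + (q * n - k * M) : ℕ) : ℤ) ≤ ((2 * ((n + 4) / 5) : ℕ) : ℤ) := by
      exact_mod_cast h5
    push_cast at h6 h8 ⊢
    linarith

end Pool.Agent.Q292.GP
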