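import Mathlib

/-!
# Labelings of disjoint unions of cycles with nearly constant edge sums

`W l` is the vertex set of the disjoint union of directed cycles of lengths `l j` (`j : J`), `nxt`
the successor. If `o` of the lengths are odd, no length is `1`, `o ≤ c` and `1 ≤ c`, then the
vertices can be labelled by `1, …, n` so that all sums of the labels of consecutive vertices lie
between `n + 1 - c` and `n + 1 + c` (`exists_labeling`).
-/

set_option autoImplicit false
set_option linter.unusedSectionVars false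

namespace Pool.Agent.Q292.NS

open Finset

variable {J : Type} [Fintype J] [DecidableEq J]

/-- the vertices `(j, x)`, `x < l j` -/
def W (l : J → ℕ) : Finset (J × ℕ) := univ.biUnion fun j => (range (l j)).image fun x => (j, x)

lemma mem_W {l : J → ℕ} {p : J × ℕ} : p ∈ W l ↔ p.2 < l p.1 := by
  unfold W
  simp only [mem_biUnion, mem_univ, true_and, mem_image, mem_range]
  constructor
  · rintro ⟨j, x, hx, rfl⟩
    exact hx
  · intro h
    exact ⟨p.1, p.2, h, rfl⟩

lemma sum_W {M : Type} [AddCommMonoid M] (l : J → ℕ) (g : J × ℕ → M) :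
    ∑ p ∈ W l, g p = ∑ j, ∑ x ∈ range (l j), g (j, x) :=
  Finset.sum_finset_product (W l) univ (fun j => range (l j)) (fun p => by simp [mem_W])

lemma card_W (l : J → ℕ) : (W l).card = ∑ j, l j := by
  rw [card_eq_sum_ones, sum_W]
  simp

/-- the successor -/
def nxt (l : J → ℕ) (p : J × ℕ) : J × ℕ := (p.1, if p.2 + 1 = l p.1 then 0 else p.2 + 1)

lemma nxt_mem {l : J → ℕ} {p : J × ℕ} (h : p ∈ W l) : nxt l p ∈ W l := by
  rw [mem_W] at *
  unfold nxt
  simp only
  split_ifs <;> omega

lemma nxt_inj {l : J → ℕ} {p q : J × ℕ} (hp : p ∈ W l) (hq : q ∈ W l) (h : nxt l p = nxt l q) :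
    p = q := by
  rw [mem_W] at *
  obtain ⟨j, x⟩ := p
  obtain ⟨j', x'⟩ := q
  unfold nxt at h
  simp only [Prod.mk.injEq] at h hp hq ⊢
  obtain ⟨rfl, h⟩ := h
  refine ⟨rfl, ?_⟩
  split_ifs at h <;> omega

/-- the side of a vertex -/
def sd (l e : J → ℕ) (p : J × ℕ) : ℕ := ((if l p.1 % 2 = 1 then e p.1 else 0) + p.2) % 2

/-- the round of a vertex -/
def rho (l : J → ℕ) (p : J × ℕ) : ℕ := min p.2 (l p.1 - 1 - p.2)

/-- the index of the arm of a vertex -/
def idx (l e : J → ℕ) (o : ℕ) (p : J × ℕ) : ℕ :=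
  if 2 * p.2 < l p.1 then e p.1 / 2 else 2 * ((o + 1 - e p.1 % 2) / 2) - 1 - e p.1 / 2

/-- the key which orders the vertices -/
def key (l e : J → ℕ) (o : ℕ) (p : J × ℕ) : ℕ ×ₗ (ℕ ×ₗ ℕ) :=
  if l p.1 % 2 = 1 then toLex (0, toLex (rho l p, idx l e o p))
  else toLex (1, toLex (e p.1, rho l p))

variable {l e : J → ℕ} {o : ℕ}

lemma key_lt (p q : J × ℕ) : key l e o p < key l e o q ↔
    (l p.1 % 2 = 1 ∧ l q.1 % 2 ≠ 1) ∨
    (l p.1 % 2 = 1 ∧ l q.1 % 2 = 1 ∧
      (rho l p < rho l q ∨ (rho l p = rho l q ∧ idx l e o p < idx l e o q))) ∨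
    (l p.1 % 2 ≠ 1 ∧ l q.1 % 2 ≠ 1 ∧
      (e p.1 < e q.1 ∨ (e p.1 = e q.1 ∧ rho l p < rho l q))) := by
  unfold key
  split_ifs with h1 h2 h2 <;>
    simp [h1, h2, Prod.Lex.toLex_lt_toLex]

lemma key_eq (p q : J × ℕ) : key l e o p = key l e o q ↔
    (l p.1 % 2 = 1 ∧ l q.1 % 2 = 1 ∧ rho l p = rho l q ∧ idx l e o p = idx l e o q) ∨
    (l p.1 % 2 ≠ 1 ∧ l q.1 % 2 ≠ 1 ∧ e p.1 = e q.1 ∧ rho l p = rho l q) := by
  unfold key
  split_ifs with h1 h2 h2 <;>
    simp [h1, h2]

lemma odd_inj (hlt : ∀ j, l j % 2 = 1 → e j < o)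
    (heo : ∀ j j', l j % 2 = 1 → l j' % 2 = 1 → e j = e j' → j = j')
    {p q : J × ℕ} (hp : p ∈ W l) (hq : q ∈ W l) (hop : l p.1 % 2 = 1) (hoq : l q.1 % 2 = 1)
    (hs : sd l e p = sd l e q) (hr : rho l p = rho l q) (hi : idx l e o p = idx l e o q) :
    p = q := by
  rw [mem_W] at hp hq
  obtain ⟨j, x⟩ := p
  obtain ⟨j', x'⟩ := q
  simp only at hp hq hop hoq
  unfold sd at hs
  unfold rho at hr
  unfold idx at hi
  simp only [hop, hoq, if_true] at hs hr hi
  have h1 := hlt j hop
  have h2 := hlt j' hoq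
  have hpar : e j % 2 = e j' % 2 := by
    rcases Nat.lt_or_ge (2 * x) (l j) with ha | ha <;>
      rcases Nat.lt_or_ge (2 * x') (l j') with hb | hb
    · omega
    · omega
    · omega
    · omega
  have he : e j = e j' ∧ (2 * x < l j ↔ 2 * x' < l j') := by
    split_ifs at hi with ha hb hb
    · refine ⟨by omega, by simp [ha, hb]⟩
    · exfalso
      omega
    · exfalso
      omega
    · refine ⟨by omega, by simp [ha, hb]⟩
  obtain ⟨he, hside⟩ := he
  have hj := heo j j' hop hoq he
  subst hj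
  simp only [Prod.mk.injEq, true_and]
  by_cases ha : 2 * x < l j
  · have hb := hside.1 ha
    omega
  · have hb : ¬ 2 * x' < l j := fun h => ha (hside.2 h)
    omega

lemma key_inj (hlt : ∀ j, l j % 2 = 1 → e j < o)
    (heo : ∀ j j', l j % 2 = 1 → l j' % 2 = 1 → e j = e j' → j = j')
    (hee : ∀ j j', l j % 2 ≠ 1 → l j' % 2 ≠ 1 → e j = e j' → j = j')
    {p q : J × ℕ} (hp : p ∈ W l) (hq : q ∈ W l)
    (hs : sd l e p = sd l e q) (hk : key l e o p = key l e o q) : p = q := by
  rcases (key_eq p q).1 hk with ⟨h1, h2, h3, h4⟩ | ⟨h1, h2, h3, h4⟩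
  · exact odd_inj hlt heo hp hq h1 h2 hs h3 h4
  · rw [mem_W] at hp hq
    obtain ⟨j, x⟩ := p
    obtain ⟨j', x'⟩ := q
    simp only at hp hq h1 h2 h3
    have hj := hee j j' h1 h2 h3
    subst hj
    unfold sd at hs
    unfold rho at h4
    simp only [h1, if_false] at hs h4
    simp only [Prod.mk.injEq, true_and]
    omega

/-- the vertices of smaller key on the same side -/
def R (l e : J → ℕ) (o : ℕ) (v : J × ℕ) : Finset (J × ℕ) :=
  (W l).filter fun w => sd l e w = sd l e v ∧ key l e o w < key l e o v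

/-- the neighbour on the arm which is closer to the centre -/
def prd (l : J → ℕ) (w : J × ℕ) : J × ℕ :=
  if 2 * w.2 < l w.1 then (w.1, w.2 - 1) else (w.1, w.2 + 1)

lemma prd_spec {w : J × ℕ} (hw : w ∈ W l) (ho : l w.1 % 2 = 1) (hr : 1 ≤ rho l w) :
    prd l w ∈ W l ∧ l (prd l w).1 % 2 = 1 ∧ sd l e (prd l w) = 1 - sd l e w ∧
      rho l (prd l w) = rho l w - 1 ∧ idx l e o (prd l w) = idx l e o w := by
  rw [mem_W] at *
  obtain ⟨j, x⟩ := w
  simp only at hw ho
  unfold rho at hr
  simp only at hr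
  unfold prd
  by_cases h : 2 * x < l j
  · have h' : 2 * (x - 1) < l j := by omega
    simp only [h, if_true]
    refine ⟨by omega, ho, ?_, ?_, ?_⟩
    · unfold sd
      simp only [ho, if_true]
      omega
    · unfold rho
      simp only
      omega
    · unfold idx
      simp only [h, h', if_true]
  · have h' : ¬ 2 * (x + 1) < l j := by omega
    simp only [h, if_false]
    refine ⟨by omega, ho, ?_, ?_, ?_⟩
    · unfold sd
      simp only [ho, if_true]
      omega
    · unfold rho
      simp only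
      omega
    · unfold idx
      simp only [h, h', if_false]

lemma prd_inj {w w' : J × ℕ} (hw : w ∈ W l) (hw' : w' ∈ W l) (hr : 1 ≤ rho l w)
    (hr' : 1 ≤ rho l w') (h : prd l w = prd l w') : w = w' := by
  rw [mem_W] at *
  obtain ⟨j, x⟩ := w
  obtain ⟨j', x'⟩ := w'
  unfold rho at hr hr'
  simp only at hw hw' hr hr'
  unfold prd at h
  simp only at h
  split_ifs at h with h1 h2 h2 <;> simp only [Prod.mk.injEq] at h <;> obtain ⟨rfl, h⟩ := h <;>
    simp only [Prod.mk.injEq, true_and] <;> omega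

/-- the vertices of round `0` on one side -/
def Z (l e : J → ℕ) (s : ℕ) : Finset (J × ℕ) :=
  (W l).filter fun w => sd l e w = s ∧ l w.1 % 2 = 1 ∧ rho l w = 0

lemma Z_par {w : J × ℕ} {s : ℕ} (h : w ∈ Z l e s) : e w.1 % 2 = s := by
  unfold Z at h
  rw [mem_filter, mem_W] at h
  obtain ⟨h1, h2, h3, h4⟩ := h
  unfold sd at h2
  unfold rho at h4
  simp only [h3, if_true] at h2
  omega

lemma card_Z (hlt : ∀ j, l j % 2 = 1 → e j < o)
    (heo : ∀ j j', l j % 2 = 1 → l j' % 2 = 1 → e j = e j' → j = j') (s : ℕ) :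
    (Z l e s).card ≤ 2 * ((o + 1 - s) / 2) := by
  have : (Z l e s).card ≤ (range (2 * ((o + 1 - s) / 2))).card := by
    refine card_le_card_of_injOn (idx l e o) (fun w hw => ?_) (fun w hw w' hw' h => ?_)
    · have hp := Z_par hw
      unfold Z at hw
      rw [mem_coe, mem_filter, mem_W] at hw
      obtain ⟨h1, h2, h3, h4⟩ := hw
      have h5 := hlt _ h3
      rw [mem_coe, mem_range]
      unfold idx
      split_ifs <;> omega
    · unfold Z at hw hw'
      rw [mem_coe, mem_filter] at hw hw'
      obtain ⟨h1, h2, h3, h4⟩ := hw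
      obtain ⟨h1', h2', h3', h4'⟩ := hw'
      exact odd_inj hlt heo h1 h1' h3 h3' (by rw [h2, h2']) (by rw [h4, h4']) h
  simpa using this

lemma card_R_zero (hlt : ∀ j, l j % 2 = 1 → e j < o)
    (heo : ∀ j j', l j % 2 = 1 → l j' % 2 = 1 → e j = e j' → j = j') {v : J × ℕ}
    (ho : l v.1 % 2 = 1) (hr : rho l v = 0) : (R l e o v).card ≤ idx l e o v := by
  have : (R l e o v).card ≤ (range (idx l e o v)).card := by
    have hmem : ∀ w ∈ R l e o v, w ∈ W l ∧ sd l e w = sd l e v ∧ l w.1 % 2 = 1 ∧ rho l w = 0 ∧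
        idx l e o w < idx l e o v := by
      intro w hw
      unfold R at hw
      rw [mem_filter, key_lt] at hw
      obtain ⟨h1, h2, h3⟩ := hw
      refine ⟨h1, h2, ?_⟩
      rcases h3 with h3 | h3 | h3
      · omega
      · omega
      · omega
    refine card_le_card_of_injOn (idx l e o) (fun w hw => ?_) (fun w hw w' hw' h => ?_)
    · rw [mem_coe, mem_range]
      exact (hmem w hw).2.2.2.2
    · obtain ⟨h1, h2, h3, h4, -⟩ := hmem w hw
      obtain ⟨h1', h2', h3', h4', -⟩ := hmem w' hw'
      exact odd_inj hlt heo h1 h1' h3 h3' (by rw [h2, h2']) (by rw [h4, h4']) h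
  simpa using this

lemma R_cover (hlt : ∀ j, l j % 2 = 1 → e j < o)
    (heo : ∀ j j', l j % 2 = 1 → l j' % 2 = 1 → e j = e j' → j = j') {v u : J × ℕ}
    (hov : l v.1 % 2 = 1) (hou : l u.1 % 2 = 1) (hsd : sd l e u = 1 - sd l e v)
    (_hsv : sd l e v ≤ 1)
    (h : ∀ w, rho l w < rho l v ∨ (rho l w = rho l v ∧ idx l e o w < idx l e o v) →
      1 ≤ rho l w → rho l w - 1 < rho l u ∨ (rho l w - 1 = rho l u ∧ idx l e o w < idx l e o u)) :
    (R l e o v).card ≤ 2 * ((o + 1 - sd l e v) / 2) + (R l e o u).card := by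
  have hmem : ∀ w ∈ R l e o v, w ∈ W l ∧ sd l e w = sd l e v ∧ l w.1 % 2 = 1 ∧
      (rho l w < rho l v ∨ (rho l w = rho l v ∧ idx l e o w < idx l e o v)) := by
    intro w hw
    unfold R at hw
    rw [mem_filter, key_lt] at hw
    obtain ⟨h1, h2, h3⟩ := hw
    refine ⟨h1, h2, ?_⟩
    rcases h3 with h3 | h3 | h3
    · omega
    · exact ⟨h3.1, h3.2.2⟩
    · omega
  have h0 : (R l e o v).filter (fun w => rho l w = 0) ⊆ Z l e (sd l e v) := by
    intro w hw
    rw [mem_filter] at hw
    obtain ⟨h1, h2, h3, h4⟩ := hmem w hw.1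
    unfold Z
    rw [mem_filter]
    exact ⟨h1, h2, h3, hw.2⟩
  have h1 : ((R l e o v).filter (fun w => ¬ rho l w = 0)).card ≤ (R l e o u).card := by
    refine card_le_card_of_injOn (prd l) (fun w hw => ?_) (fun w hw w' hw' h => ?_)
    · rw [mem_coe, mem_filter] at hw
      obtain ⟨h1, h2, h3, h4⟩ := hmem w hw.1
      have hr : 1 ≤ rho l w := by omega
      obtain ⟨a1, a2, a3, a4, a5⟩ := prd_spec (e := e) (o := o) h1 h3 hr
      rw [mem_coe]
      unfold R
      rw [mem_filter, key_lt]
      refine ⟨a1, by rw [a3, h2, hsd], Or.inr (Or.inl ⟨a2, hou, ?_⟩)⟩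
      rw [a4, a5]
      exact h w h4 hr
    · rw [mem_coe, mem_filter] at hw hw'
      exact prd_inj (hmem w hw.1).1 (hmem w' hw'.1).1 (by omega) (by omega) h
  have h2 := card_filter_add_card_filter_not (s := R l e o v) (fun w => rho l w = 0)
  have h3 := card_le_card h0
  have h4 := card_Z hlt heo (sd l e v)
  omega

lemma rank_step (hlt : ∀ j, l j % 2 = 1 → e j < o)
    (heo : ∀ j j', l j % 2 = 1 → l j' % 2 = 1 → e j = e j' → j = j') {u v : J × ℕ}
    (hou : l u.1 % 2 = 1) (hov : l v.1 % 2 = 1) (hsd : sd l e u = 1 - sd l e v)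
    (hsv : sd l e v ≤ 1) (hr : rho l v = rho l u + 1) (hi : idx l e o v ≤ idx l e o u) :
    (R l e o v).card ≤ 2 * ((o + 1 - sd l e v) / 2) + (R l e o u).card ∧
      (R l e o u).card ≤ 2 * ((o + 1 - sd l e u) / 2) + (R l e o v).card := by
  constructor
  · exact R_cover hlt heo hov hou hsd hsv (fun w h1 h2 => by omega)
  · exact R_cover hlt heo hou hov (by omega) (by omega) (fun w h1 h2 => by omega)

/-- the vertices of the odd cycles on one side -/
def OS (l e : J → ℕ) (s : ℕ) : Finset (J × ℕ) :=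
  (W l).filter fun w => l w.1 % 2 = 1 ∧ sd l e w = s

/-- the vertices of the even cycles on one side, with key less than `K` -/
def ES (l e : J → ℕ) (o s : ℕ) (K : ℕ ×ₗ (ℕ ×ₗ ℕ)) : Finset (J × ℕ) :=
  (W l).filter fun w => l w.1 % 2 ≠ 1 ∧ sd l e w = s ∧ key l e o w < K

lemma key_odd_lt_even {p q : J × ℕ} (hp : l p.1 % 2 = 1) (hq : l q.1 % 2 ≠ 1) :
    key l e o p < key l e o q := by
  rw [key_lt]
  exact Or.inl ⟨hp, hq⟩

lemma card_R_even {v : J × ℕ} (hv : l v.1 % 2 ≠ 1) :
    (R l e o v).card = (OS l e (sd l e v)).card + (ES l e o (sd l e v) (key l e o v)).card := by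
  rw [← card_union_of_disjoint]
  · congr 1
    ext w
    unfold R OS ES
    simp only [mem_union, mem_filter]
    constructor
    · rintro ⟨h1, h2, h3⟩
      by_cases ho : l w.1 % 2 = 1
      · exact Or.inl ⟨h1, ho, h2⟩
      · exact Or.inr ⟨h1, ho, h2, h3⟩
    · rintro (⟨h1, h2, h3⟩ | ⟨h1, h2, h3, h4⟩)
      · exact ⟨h1, h3, key_odd_lt_even h2 hv⟩
      · exact ⟨h1, h3, h4⟩
  · rw [disjoint_left]
    intro w h1 h2
    unfold OS at h1
    unfold ES at h2
    rw [mem_filter] at h1 h2
    exact h2.2.1 h1.2.1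

/-- the reflection of the cycles -/
def inv (l : J → ℕ) (w : J × ℕ) : J × ℕ := (w.1, l w.1 - 1 - w.2)

lemma inv_inv {w : J × ℕ} (hw : w ∈ W l) : inv l (inv l w) = w := by
  rw [mem_W] at hw
  obtain ⟨j, x⟩ := w
  unfold inv
  simp only [Prod.mk.injEq, true_and] at *
  omega

lemma inv_spec {w : J × ℕ} (hw : w ∈ W l) (he : l w.1 % 2 ≠ 1) :
    inv l w ∈ W l ∧ l (inv l w).1 % 2 ≠ 1 ∧ sd l e (inv l w) = 1 - sd l e w ∧
      key l e o (inv l w) = key l e o w := by
  rw [mem_W] at *
  obtain ⟨j, x⟩ := w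
  simp only at hw he
  have hr : rho l (inv l (j, x)) = rho l (j, x) := by
    unfold rho inv
    simp only
    omega
  refine ⟨?_, ?_, ?_, ?_⟩
  · unfold inv
    simp only
    omega
  · unfold inv
    simpa using he
  · unfold sd inv
    simp only [he, if_false]
    omega
  · rw [key_eq]
    refine Or.inr ⟨?_, he, rfl, hr⟩
    unfold inv
    simpa using he

lemma card_ES (K : ℕ ×ₗ (ℕ ×ₗ ℕ)) : (ES l e o 0 K).card = (ES l e o 1 K).card := by
  refine card_nbij' (inv l) (inv l) (fun w hw => ?_) (fun w hw => ?_) (fun w hw => ?_)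
    (fun w hw => ?_)
  · unfold ES at *
    rw [mem_coe, mem_filter] at *
    obtain ⟨h1, h2, h3, h4⟩ := hw
    obtain ⟨a1, a2, a3, a4⟩ := inv_spec (e := e) (o := o) h1 h2
    exact ⟨a1, a2, by rw [a3, h3], by rw [a4]; exact h4⟩
  · unfold ES at *
    rw [mem_coe, mem_filter] at *
    obtain ⟨h1, h2, h3, h4⟩ := hw
    obtain ⟨a1, a2, a3, a4⟩ := inv_spec (e := e) (o := o) h1 h2
    exact ⟨a1, a2, by rw [a3, h3], by rw [a4]; exact h4⟩
  · unfold ES at hw
    rw [mem_coe, mem_filter] at hw
    exact inv_inv hw.1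
  · unfold ES at hw
    rw [mem_coe, mem_filter] at hw
    exact inv_inv hw.1

lemma card_ES_step (hlt : ∀ j, l j % 2 = 1 → e j < o)
    (heo : ∀ j j', l j % 2 = 1 → l j' % 2 = 1 → e j = e j' → j = j')
    (hee : ∀ j j', l j % 2 ≠ 1 → l j' % 2 ≠ 1 → e j = e j' → j = j')
    {p q : J × ℕ} (hp : l p.1 % 2 ≠ 1) (hq : l q.1 % 2 ≠ 1) (hpq : e p.1 = e q.1)
    (hr : rho l q ≤ rho l p + 1) (s : ℕ) :
    (ES l e o s (key l e o q)).card ≤ (ES l e o s (key l e o p)).card + 1 := by
  have hsub : ES l e o s (key l e o q) ⊆ ES l e o s (key l e o p) ∪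
      (W l).filter (fun w => sd l e w = s ∧ key l e o w = key l e o p) := by
    intro w hw
    unfold ES at *
    rw [mem_filter] at hw
    obtain ⟨h1, h2, h3, h4⟩ := hw
    rw [mem_union, mem_filter, mem_filter]
    by_cases hk : key l e o w < key l e o p
    · exact Or.inl ⟨h1, h2, h3, hk⟩
    · refine Or.inr ⟨h1, h3, ?_⟩
      rw [key_lt] at h4 hk
      rw [key_eq]
      omega
  have h1 : ((W l).filter (fun w => sd l e w = s ∧ key l e o w = key l e o p)).card ≤ 1 := by
    rw [card_le_one]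
    intro a ha b hb
    rw [mem_filter] at ha hb
    exact key_inj hlt heo hee ha.1 hb.1 (by rw [ha.2.1, hb.2.1]) (by rw [ha.2.2, hb.2.2])
  have h2 := card_le_card hsub
  have h3 := card_union_le (ES l e o s (key l e o p))
    ((W l).filter (fun w => sd l e w = s ∧ key l e o w = key l e o p))
  omega

lemma sd_le (p : J × ℕ) : sd l e p ≤ 1 := by
  unfold sd
  omega

lemma neg_one_pow_sd (p : J × ℕ) (hp : l p.1 % 2 = 1) :
    ((-1 : ℤ)) ^ (e p.1 + p.2) = if sd l e p = 0 then 1 else -1 := by
  unfold sd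
  simp only [hp, if_true]
  split_ifs with h
  · exact Even.neg_one_pow (Nat.even_iff.2 h)
  · exact Odd.neg_one_pow (Nat.odd_iff.2 (by omega))

lemma card_OS (hlt : ∀ j, l j % 2 = 1 → e j < o)
    (heo : ∀ j j', l j % 2 = 1 → l j' % 2 = 1 → e j = e j' → j = j')
    (hsurj : ∀ q < o, ∃ j, l j % 2 = 1 ∧ e j = q) :
    (OS l e 0).card = (OS l e 1).card + o % 2 := by
  have h1 : ∑ p ∈ W l, (if l p.1 % 2 = 1 then ((-1 : ℤ)) ^ (e p.1 + p.2) else 0) =
      ((OS l e 0).card : ℤ) - (OS l e 1).card := by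
    have e1 : ∀ s : ℕ, ((OS l e s).card : ℤ) =
        ∑ p ∈ W l, if l p.1 % 2 = 1 ∧ sd l e p = s then (1 : ℤ) else 0 := by
      intro s
      unfold OS
      rw [card_filter]
      push_cast
      rfl
    rw [e1, e1, ← sum_sub_distrib]
    refine sum_congr rfl fun p _ => ?_
    have hle := sd_le (l := l) (e := e) p
    by_cases ho : l p.1 % 2 = 1
    · rw [if_pos ho, neg_one_pow_sd p ho]
      rcases (by omega : sd l e p = 0 ∨ sd l e p = 1) with h | h <;> simp [h, ho]
    · simp [ho]
  have h2 : ∑ p ∈ W l, (if l p.1 % 2 = 1 then ((-1 : ℤ)) ^ (e p.1 + p.2) else 0) =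
      ∑ j ∈ univ.filter (fun j => l j % 2 = 1), ((-1 : ℤ)) ^ (e j) := by
    rw [sum_W, sum_filter]
    refine sum_congr rfl fun j _ => ?_
    simp only
    by_cases ho : l j % 2 = 1
    · simp only [ho, if_true]
      simp_rw [pow_add]
      rw [← mul_sum, neg_one_geom_sum, if_neg, mul_one]
      rw [Nat.even_iff]
      omega
    · simp [ho]
  have h3 : ∑ j ∈ univ.filter (fun j => l j % 2 = 1), ((-1 : ℤ)) ^ (e j) =
      ∑ q ∈ range o, ((-1 : ℤ)) ^ q := by
    refine sum_nbij e (fun j hj => ?_) (fun j hj j' hj' h => ?_) (fun q hq => ?_) (fun j hj => rfl)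
    · rw [mem_filter] at hj
      exact mem_range.2 (hlt j hj.2)
    · rw [mem_coe, mem_filter] at hj hj'
      exact heo j j' hj.2 hj'.2 h
    · rw [mem_coe, mem_range] at hq
      obtain ⟨j, hj, hjq⟩ := hsurj q hq
      exact ⟨j, by simpa using hj, hjq⟩
  rw [h3, neg_one_geom_sum] at h2
  rw [h2] at h1
  split_ifs at h1 with ho
  · rw [Nat.even_iff] at ho
    omega
  · rw [Nat.even_iff] at ho
    omega

/-- the vertices on one side -/
def PS (l e : J → ℕ) (s : ℕ) : Finset (J × ℕ) := (W l).filter fun w => sd l e w = s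

lemma card_PS_add : (PS l e 0).card + (PS l e 1).card = (W l).card := by
  have h := card_filter_add_card_filter_not (s := W l) (fun w => sd l e w = 0)
  have h2 : (W l).filter (fun w => ¬ sd l e w = 0) = PS l e 1 := by
    unfold PS
    refine filter_congr fun w _ => ?_
    have := sd_le (l := l) (e := e) w
    omega
  rw [h2] at h
  exact h

lemma card_PS (hlt : ∀ j, l j % 2 = 1 → e j < o)
    (heo : ∀ j j', l j % 2 = 1 → l j' % 2 = 1 → e j = e j' → j = j')
    (hsurj : ∀ q < o, ∃ j, l j % 2 = 1 ∧ e j = q) :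
    (PS l e 0).card = (PS l e 1).card + o % 2 := by
  have h1 : ∀ s : ℕ, (PS l e s).card = (OS l e s).card +
      (ES l e o s (toLex (2, toLex (0, 0)))).card := by
    intro s
    rw [← card_union_of_disjoint]
    · congr 1
      ext w
      unfold PS OS ES
      simp only [mem_union, mem_filter]
      constructor
      · rintro ⟨h1, h2⟩
        by_cases ho : l w.1 % 2 = 1
        · exact Or.inl ⟨h1, ho, h2⟩
        · refine Or.inr ⟨h1, ho, h2, ?_⟩
          unfold key
          rw [if_neg ho, Prod.Lex.toLex_lt_toLex]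
          exact Or.inl (by norm_num)
      · rintro (⟨h1, h2, h3⟩ | ⟨h1, h2, h3, h4⟩)
        · exact ⟨h1, h3⟩
        · exact ⟨h1, h3⟩
    · rw [disjoint_left]
      intro w h1 h2
      unfold OS at h1
      unfold ES at h2
      rw [mem_filter] at h1 h2
      exact h2.2.1 h1.2.1
  have h2 := card_OS hlt heo hsurj
  have h3 := card_ES (l := l) (e := e) (o := o) (toLex (2, toLex (0, 0)))
  rw [h1, h1]
  omega

lemma R_lt {v : J × ℕ} (hv : v ∈ W l) : (R l e o v).card < (PS l e (sd l e v)).card := by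
  refine card_lt_card ?_
  rw [ssubset_iff_of_subset]
  · refine ⟨v, ?_, ?_⟩
    · unfold PS
      rw [mem_filter]
      exact ⟨hv, rfl⟩
    · unfold R
      rw [mem_filter]
      rintro ⟨-, -, h⟩
      exact lt_irrefl _ h
  · intro w hw
    unfold R at hw
    unfold PS
    rw [mem_filter] at *
    exact ⟨hw.1, hw.2.1⟩

lemma R_mono {v w : J × ℕ} (hv : v ∈ W l) (hs : sd l e v = sd l e w)
    (hk : key l e o v < key l e o w) : (R l e o v).card < (R l e o w).card := by
  refine card_lt_card ?_
  rw [ssubset_iff_of_subset]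
  · refine ⟨v, ?_, ?_⟩
    · unfold R
      rw [mem_filter]
      exact ⟨hv, hs, hk⟩
    · unfold R
      rw [mem_filter]
      rintro ⟨-, -, h⟩
      exact lt_irrefl _ h
  · intro u hu
    unfold R at *
    rw [mem_filter] at *
    exact ⟨hu.1, by rw [hu.2.1, hs], lt_trans hu.2.2 hk⟩

/-- the labels -/
def lab (l e : J → ℕ) (o : ℕ) (v : J × ℕ) : ℕ :=
  if sd l e v = 0 then (PS l e 1).card + 1 + (R l e o v).card
  else (PS l e 1).card - (R l e o v).card

lemma lab_range {v : J × ℕ} (hv : v ∈ W l) : 1 ≤ lab l e o v ∧ lab l e o v ≤ (W l).card := by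
  have h1 := R_lt (e := e) (o := o) hv
  have h2 := card_PS_add (l := l) (e := e)
  have h3 := sd_le (l := l) (e := e) v
  unfold lab
  split_ifs with h
  · rw [h] at h1
    omega
  · have h4 : sd l e v = 1 := by omega
    rw [h4] at h1
    omega

lemma lab_inj (hlt : ∀ j, l j % 2 = 1 → e j < o)
    (heo : ∀ j j', l j % 2 = 1 → l j' % 2 = 1 → e j = e j' → j = j')
    (hee : ∀ j j', l j % 2 ≠ 1 → l j' % 2 ≠ 1 → e j = e j' → j = j')
    {v w : J × ℕ} (hv : v ∈ W l) (hw : w ∈ W l) (h : lab l e o v = lab l e o w) : v = w := by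
  have h1 := R_lt (e := e) (o := o) hv
  have h2 := R_lt (e := e) (o := o) hw
  have h3 := sd_le (l := l) (e := e) v
  have h4 := sd_le (l := l) (e := e) w
  have hs : sd l e v = sd l e w ∧ (R l e o v).card = (R l e o w).card := by
    unfold lab at h
    rcases (by omega : sd l e v = 0 ∨ sd l e v = 1) with a | a <;>
      rcases (by omega : sd l e w = 0 ∨ sd l e w = 1) with b | b <;>
      simp only [a, b, if_true, one_ne_zero, if_false] at h h1 h2 <;>
      exact ⟨by omega, by omega⟩
  obtain ⟨hs, hR⟩ := hs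
  rcases lt_trichotomy (key l e o v) (key l e o w) with hk | hk | hk
  · have := R_mono hv hs hk
    omega
  · exact key_inj hlt heo hee hv hw hs hk
  · have := R_mono hw hs.symm hk
    omega

theorem lab_sum (hl : ∀ j, l j ≠ 1) (hlt : ∀ j, l j % 2 = 1 → e j < o)
    (heo : ∀ j j', l j % 2 = 1 → l j' % 2 = 1 → e j = e j' → j = j')
    (hee : ∀ j j', l j % 2 ≠ 1 → l j' % 2 ≠ 1 → e j = e j' → j = j')
    (hsurj : ∀ q < o, ∃ j, l j % 2 = 1 ∧ e j = q) (c : ℕ) (hc : 1 ≤ c) (hoc : o ≤ c)
    {p : J × ℕ} (hp : p ∈ W l) :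
    (W l).card + 1 ≤ lab l e o p + lab l e o (nxt l p) + c ∧
      lab l e o p + lab l e o (nxt l p) ≤ (W l).card + 1 + c := by
  have hq := nxt_mem hp
  have hP := card_PS hlt heo hsurj
  have hPQ := card_PS_add (l := l) (e := e)
  have r1 := R_lt (e := e) (o := o) hp
  have r2 := R_lt (e := e) (o := o) hq
  have s1 := sd_le (l := l) (e := e) p
  have s2 := sd_le (l := l) (e := e) (nxt l p)
  -- the cross edges
  have cross : sd l e (nxt l p) = 1 - sd l e p →
      ((R l e o p).card ≤ o + (if sd l e p = 0 then o % 2 else 0) -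
        (if sd l e p = 0 then 0 else o % 2) + (R l e o (nxt l p)).card ∧
      (R l e o (nxt l p)).card ≤ o + (if sd l e p = 0 then 0 else o % 2) -
        (if sd l e p = 0 then o % 2 else 0) + (R l e o p).card) ∨
      (∃ a b : ℕ, a ≤ b + 1 ∧ b ≤ a + 1 ∧
        (R l e o p).card = a + (if sd l e p = 0 then o % 2 else 0) ∧
        (R l e o (nxt l p)).card = b + (if sd l e p = 0 then 0 else o % 2)) →
      (W l).card + 1 ≤ lab l e o p + lab l e o (nxt l p) + c ∧
        lab l e o p + lab l e o (nxt l p) ≤ (W l).card + 1 + c := by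
    intro h h'
    unfold lab
    rcases (by omega : sd l e p = 0 ∨ sd l e p = 1) with a | a
    · rw [a] at h r1
      rw [h] at r2
      simp only [a, h, if_true, Nat.sub_zero, one_ne_zero, if_false] at h' r2 ⊢
      rcases h' with ⟨h1, h2⟩ | ⟨x, y, h1, h2, h3, h4⟩ <;> omega
    · rw [a] at h r1
      rw [h] at r2
      simp only [a, h, if_true, Nat.sub_self, one_ne_zero, if_false] at h' r2 ⊢
      rcases h' with ⟨h1, h2⟩ | ⟨x, y, h1, h2, h3, h4⟩ <;> omega
  have hpl := mem_W.1 hp
  by_cases ho : l p.1 % 2 = 1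
  · have ho' : l (nxt l p).1 % 2 = 1 := ho
    have hlp := hl p.1
    have hep := hlt p.1 ho
    by_cases hw : p.2 + 1 = l p.1
    · -- the edge between the two arms of round zero
      have hnx : nxt l p = (p.1, 0) := by
        unfold nxt
        rw [if_pos hw]
      have hr1 : rho l p = 0 := by
        unfold rho
        omega
      have hr2 : rho l (nxt l p) = 0 := by
        rw [hnx]
        unfold rho
        simp
      have hs : sd l e (nxt l p) = sd l e p := by
        rw [hnx]
        unfold sd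
        simp only [ho, if_true]
        omega
      have hsp : sd l e p = e p.1 % 2 := by
        unfold sd
        simp only [ho, if_true]
        omega
      have h1 := card_R_zero hlt heo ho hr1
      have h2 := card_R_zero hlt heo ho' hr2
      have h3 : idx l e o p = 2 * ((o + 1 - e p.1 % 2) / 2) - 1 - e p.1 / 2 := by
        unfold idx
        rw [if_neg (by omega)]
      have h4 : idx l e o (nxt l p) = e p.1 / 2 := by
        rw [hnx]
        unfold idx
        rw [if_pos (by simp only; omega)]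
      rw [hs] at r2
      unfold lab
      rcases (by omega : sd l e p = 0 ∨ sd l e p = 1) with a | a
      · simp only [a, hs, if_true] at r1 r2 ⊢
        omega
      · simp only [a, hs, one_ne_zero, if_false] at r1 r2 ⊢
        omega
    · -- the edges of the arms
      have hnx : nxt l p = (p.1, p.2 + 1) := by
        unfold nxt
        rw [if_neg hw]
      have hs : sd l e (nxt l p) = 1 - sd l e p := by
        rw [hnx]
        unfold sd
        simp only [ho, if_true]
        omega
      have hs' : sd l e p = 1 - sd l e (nxt l p) := by omega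
      have key1 : ∀ a b : ℕ, a ≤ 1 → b = 1 - a →
          (R l e o p).card ≤ 2 * ((o + 1 - a) / 2) + (R l e o (nxt l p)).card →
          (R l e o (nxt l p)).card ≤ 2 * ((o + 1 - b) / 2) + (R l e o p).card → sd l e p = a →
          (R l e o p).card ≤ o + (if sd l e p = 0 then o % 2 else 0) -
            (if sd l e p = 0 then 0 else o % 2) + (R l e o (nxt l p)).card ∧
          (R l e o (nxt l p)).card ≤ o + (if sd l e p = 0 then 0 else o % 2) -
            (if sd l e p = 0 then o % 2 else 0) + (R l e o p).card := by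
        intro a b ha hb h1 h2 h3
        rw [h3]
        rcases (by omega : a = 0 ∨ a = 1) with rfl | rfl
        · subst hb
          simp only [if_true]
          omega
        · subst hb
          simp only [one_ne_zero, if_false]
          omega
      refine cross hs (Or.inl ?_)
      by_cases hx : 2 * (p.2 + 1) < l p.1
      · -- `p` is closer to the centre
        have hr : rho l (nxt l p) = rho l p + 1 := by
          rw [hnx]
          unfold rho
          simp only
          omega
        have hi : idx l e o (nxt l p) ≤ idx l e o p := by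
          rw [hnx]
          unfold idx
          simp only
          rw [if_pos hx, if_pos (by omega)]
        have h := rank_step hlt heo ho ho' hs' s2 hr hi
        exact key1 _ _ s1 hs h.2 h.1 rfl
      · -- `nxt p` is closer to the centre
        have hr : rho l p = rho l (nxt l p) + 1 := by
          rw [hnx]
          unfold rho
          simp only
          omega
        have hi : idx l e o p ≤ idx l e o (nxt l p) := by
          rw [hnx]
          unfold idx
          simp only
          rw [if_neg hx]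
          split_ifs
          · omega
          · omega
        have h := rank_step hlt heo ho' ho hs s1 hr hi
        exact key1 _ _ s1 hs h.1 h.2 rfl
  · have ho' : l (nxt l p).1 % 2 ≠ 1 := ho
    have hs : sd l e (nxt l p) = 1 - sd l e p := by
      unfold nxt sd
      simp only [ho, if_false]
      split_ifs
      · omega
      · omega
    have hr1 : rho l (nxt l p) ≤ rho l p + 1 := by
      unfold nxt rho
      simp only
      split_ifs
      · omega
      · omega
    have hr2 : rho l p ≤ rho l (nxt l p) + 1 := by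
      unfold nxt rho
      simp only
      split_ifs
      · omega
      · omega
    refine cross hs (Or.inr ?_)
    have e1 := card_R_even (e := e) (o := o) ho
    have e2 := card_R_even (e := e) (o := o) ho'
    have hO := card_OS hlt heo hsurj
    have hE1 := card_ES (l := l) (e := e) (o := o) (key l e o p)
    have hE2 := card_ES (l := l) (e := e) (o := o) (key l e o (nxt l p))
    have k1 := card_ES_step hlt heo hee ho ho' rfl hr1 0
    have k2 := card_ES_step hlt heo hee ho' ho rfl hr2 0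
    refine ⟨(OS l e 1).card + (ES l e o 0 (key l e o p)).card,
      (OS l e 1).card + (ES l e o 0 (key l e o (nxt l p))).card, by omega, by omega, ?_, ?_⟩
    · rw [e1]
      rcases (by omega : sd l e p = 0 ∨ sd l e p = 1) with a | a
      · simp only [a, if_true]
        omega
      · simp only [a, one_ne_zero, if_false]
        omega
    · rw [e2, hs]
      rcases (by omega : sd l e p = 0 ∨ sd l e p = 1) with a | a
      · simp only [a, if_true, Nat.sub_zero]
        omega
      · simp only [a, one_ne_zero, if_false, Nat.sub_self]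
        omega

/-- If `o` of the lengths are odd, none is `1`, `o ≤ c` and `1 ≤ c`, there is a labeling with all
sums between `n + 1 - c` and `n + 1 + c`. -/
theorem exists_labeling (l : J → ℕ) (hl : ∀ j, l j ≠ 1) (c : ℕ) (hc : 1 ≤ c)
    (hoc : (univ.filter fun j => l j % 2 = 1).card ≤ c) :
    ∃ f : J × ℕ → ℕ, (∀ p ∈ W l, 1 ≤ f p ∧ f p ≤ (W l).card) ∧
      (∀ p ∈ W l, ∀ q ∈ W l, f p = f q → p = q) ∧
      ∀ p ∈ W l, (W l).card + 1 ≤ f p + f (nxt l p) + c ∧
        f p + f (nxt l p) ≤ (W l).card + 1 + c := by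
  classical
  have e1 := Fintype.equivFin {j // l j % 2 = 1}
  have e2 := Fintype.equivFin {j // l j % 2 ≠ 1}
  set e : J → ℕ := fun j => if h : l j % 2 = 1 then (e1 ⟨j, h⟩).val else (e2 ⟨j, h⟩).val with he
  have ho : (univ.filter fun j => l j % 2 = 1).card = Fintype.card {j // l j % 2 = 1} := by
    rw [Fintype.card_subtype]
  have hlt : ∀ j, l j % 2 = 1 → e j < (univ.filter fun j => l j % 2 = 1).card := by
    intro j hj
    rw [ho, he]
    simp only [hj, dif_pos]
    exact (e1 ⟨j, hj⟩).isLt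
  have heo : ∀ j j', l j % 2 = 1 → l j' % 2 = 1 → e j = e j' → j = j' := by
    intro j j' hj hj' h
    rw [he] at h
    simp only [hj, hj', dif_pos] at h
    simpa using e1.injective (Fin.ext h)
  have hee : ∀ j j', l j % 2 ≠ 1 → l j' % 2 ≠ 1 → e j = e j' → j = j' := by
    intro j j' hj hj' h
    rw [he] at h
    simp only [hj, hj', dif_neg, not_false_iff] at h
    simpa using e2.injective (Fin.ext h)
  have hsurj : ∀ q < (univ.filter fun j => l j % 2 = 1).card, ∃ j, l j % 2 = 1 ∧ e j = q := by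
    intro q hq
    rw [ho] at hq
    obtain ⟨⟨j, hj⟩, h⟩ := e1.surjective ⟨q, hq⟩
    refine ⟨j, hj, ?_⟩
    rw [he]
    simp only [hj, dif_pos]
    rw [h]
  exact ⟨lab l e (univ.filter fun j => l j % 2 = 1).card, fun p hp => lab_range hp,
    fun p hp q hq h => lab_inj hlt heo hee hp hq h,
    fun p hp => lab_sum hl hlt heo hee hsurj c hc hoc hp⟩

end Pool.Agent.Q292.NS
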