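import Pool.Agent.Q292.NbrSumCore

/-!
# Lower bounds for the largest edge sum of a labeled disjoint union of cycles
-/

set_option autoImplicit false
set_option linter.unusedSectionVars false

namespace Pool.Agent.Q292.NS

open Finset

variable {J : Type} [Fintype J] [DecidableEq J] {l : J → ℕ}

lemma image_lab {f : J × ℕ → ℕ} (hf : ∀ p ∈ W l, 1 ≤ f p ∧ f p ≤ (W l).card)
    (hinj : ∀ p ∈ W l, ∀ q ∈ W l, f p = f q → p = q) : (W l).image f = Icc 1 (W l).card := by
  refine eq_of_subset_of_card_le (fun m hm => ?_) ?_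
  · rw [mem_image] at hm
    obtain ⟨p, hp, rfl⟩ := hm
    exact mem_Icc.2 (hf p hp)
  · rw [Nat.card_Icc, card_image_of_injOn (fun p hp q hq h => hinj p hp q hq h)]
    omega

lemma card_top {f : J × ℕ → ℕ} (hf : ∀ p ∈ W l, 1 ≤ f p ∧ f p ≤ (W l).card)
    (hinj : ∀ p ∈ W l, ∀ q ∈ W l, f p = f q → p = q) (S : ℕ) :
    ((W l).filter fun p => S < 2 * f p).card = (W l).card - S / 2 := by
  have h1 : ((W l).filter fun p => S < 2 * f p).image f = Icc (S / 2 + 1) (W l).card := by
    ext m
    rw [mem_image, mem_Icc]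
    constructor
    · rintro ⟨p, hp, rfl⟩
      rw [mem_filter] at hp
      have := hf p hp.1
      omega
    · rintro ⟨h1, h2⟩
      have h3 : m ∈ (W l).image f := by
        rw [image_lab hf hinj, mem_Icc]
        omega
      rw [mem_image] at h3
      obtain ⟨p, hp, rfl⟩ := h3
      exact ⟨p, mem_filter.2 ⟨hp, by omega⟩, rfl⟩
  have h2 : (((W l).filter fun p => S < 2 * f p).image f).card =
      ((W l).filter fun p => S < 2 * f p).card :=
    card_image_of_injOn (fun p hp q hq h =>
      hinj p (mem_of_mem_filter p hp) q (mem_of_mem_filter q hq) h)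
  rw [← h2, h1, Nat.card_Icc]
  omega

theorem lower_odd (hl : ∀ j, l j ≠ 1) (hne : (W l).Nonempty) (f : J × ℕ → ℕ)
    (hf : ∀ p ∈ W l, 1 ≤ f p ∧ f p ≤ (W l).card)
    (hinj : ∀ p ∈ W l, ∀ q ∈ W l, f p = f q → p = q) (S : ℕ)
    (hS : ∀ p ∈ W l, f p + f (nxt l p) ≤ S) :
    (W l).card + 1 + (univ.filter fun j => l j % 2 = 1).card ≤ S := by
  classical
  set T : Finset (J × ℕ) := (W l).filter fun p => S < 2 * f p with hT
  have hTmem : ∀ p, p ∈ T ↔ p ∈ W l ∧ S < 2 * f p := fun p => by rw [hT, mem_filter]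
  set T' : Finset (J × ℕ) := T.image (nxt l) with hT'
  have hT'mem : ∀ p ∈ W l, nxt l p ∈ T' ↔ p ∈ T := by
    intro p hp
    rw [hT', mem_image]
    constructor
    · rintro ⟨q, hq, h⟩
      rwa [← nxt_inj ((hTmem q).1 hq).1 hp h]
    · intro h
      exact ⟨p, h, rfl⟩
  have hcT' : T'.card = T.card :=
    card_image_of_injOn (fun p hp q hq h => nxt_inj ((hTmem p).1 hp).1 ((hTmem q).1 hq).1 h)
  have hdisj : Disjoint T T' := by
    rw [disjoint_left]
    intro p hp hp'
    rw [hT', mem_image] at hp'
    obtain ⟨q, hq, rfl⟩ := hp'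
    have h1 := (hTmem _).1 hp
    have h2 := (hTmem _).1 hq
    have h3 := hS q h2.1
    omega
  set X : Finset (J × ℕ) := W l \ (T ∪ T') with hX
  have hXmem : ∀ p, p ∈ X ↔ p ∈ W l ∧ p ∉ T ∧ p ∉ T' := by
    intro p
    rw [hX, mem_sdiff, mem_union]
    tauto
  have hsub : T ∪ T' ⊆ W l := by
    intro p hp
    rw [mem_union] at hp
    rcases hp with hp | hp
    · exact ((hTmem p).1 hp).1
    · rw [hT', mem_image] at hp
      obtain ⟨q, hq, rfl⟩ := hp
      exact nxt_mem ((hTmem q).1 hq).1
  have hcX : X.card = (W l).card - 2 * T.card := by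
    rw [hX, card_sdiff_of_subset hsub, card_union_of_disjoint hdisj, hcT']
    ring_nf
  have hcT : T.card = (W l).card - S / 2 := card_top hf hinj S
  have h2T : 2 * T.card ≤ (W l).card := by
    have := card_le_card hsub
    rw [card_union_of_disjoint hdisj, hcT'] at this
    omega
  -- every odd cycle contains a vertex of `X`
  have hodd : ∀ j, l j % 2 = 1 → ∃ p ∈ X, p.1 = j := by
    intro j hj
    by_contra hcon
    push Not at hcon
    have halt : ∀ p ∈ W l, p.1 = j → (nxt l p ∈ T ↔ p ∉ T) := by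
      intro p hp hpj
      have hq := nxt_mem hp
      constructor
      · intro h1 h2
        have h3 := (hTmem _).1 h1
        have h4 := (hTmem _).1 h2
        have h5 := hS p hp
        omega
      · intro h1
        by_contra h2
        refine hcon (nxt l p) ((hXmem _).2 ⟨hq, h2, ?_⟩) hpj
        rw [hT'mem p hp]
        exact h1
    have hind : ∀ x, x < l j → ((j, x) ∈ T ↔ (x % 2 = 0 ↔ (j, 0) ∈ T)) := by
      intro x
      induction x with
      | zero => intro _; simp
      | succ x ih =>
        intro hx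
        have h1 := ih (by omega)
        have h2 := halt (j, x) (mem_W.2 (by simp only; omega)) rfl
        have h3 : nxt l (j, x) = (j, x + 1) := by
          unfold nxt
          simp only
          rw [if_neg (by omega)]
        rw [h3] at h2
        rw [h2, h1]
        by_cases h0 : (j, 0) ∈ T
        · simp only [h0, iff_true]
          omega
        · simp only [h0, iff_false]
          omega
    have hlj := hl j
    have h1 := hind (l j - 1) (by omega)
    have h2 := halt (j, l j - 1) (mem_W.2 (by simp only; omega)) rfl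
    have h3 : nxt l (j, l j - 1) = (j, 0) := by
      unfold nxt
      simp only
      rw [if_pos (by omega)]
    rw [h3, h1] at h2
    have h4 : (l j - 1) % 2 = 0 := by omega
    simp only [h4, true_iff] at h2
    tauto
  have hcount : ∀ Y : Finset (J × ℕ), (∀ j, l j % 2 = 1 → ∃ p ∈ Y, p.1 = j) →
      (univ.filter fun j => l j % 2 = 1).card ≤ Y.card := by
    intro Y hY
    have : (univ.filter fun j => l j % 2 = 1) ⊆ Y.image Prod.fst := by
      intro j hj
      rw [mem_filter] at hj
      obtain ⟨p, hp, h⟩ := hY j hj.2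
      exact mem_image.2 ⟨p, hp, h⟩
    exact (card_le_card this).trans card_image_le
  have hoX := hcount X hodd
  have hoW := hcount (W l) (fun j hj => by
    obtain ⟨p, hp, h⟩ := hodd j hj
    exact ⟨p, ((hXmem p).1 hp).1, h⟩)
  have hn : 1 ≤ (W l).card := card_pos.2 hne
  -- the sum is at least `2`
  have hS2 : 2 ≤ S := by
    obtain ⟨p, hp⟩ := hne
    have h1 := hS p hp
    have h2 := hf p hp
    have h3 := hf _ (nxt_mem hp)
    omega
  rcases Nat.lt_or_ge (W l).card (S / 2) with hbig | hsmall
  · omega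
  rcases Nat.even_or_odd' S with ⟨s, hs | hs⟩
  · -- the vertex of label `s`
    have hs1 : s ∈ (W l).image f := by
      rw [image_lab hf hinj, mem_Icc]
      omega
    rw [mem_image] at hs1
    obtain ⟨w, hw, hws⟩ := hs1
    have hwT : w ∉ T := by
      rw [hTmem]
      rintro ⟨-, h⟩
      omega
    have hwX : w ∈ X := by
      rw [hXmem]
      refine ⟨hw, hwT, ?_⟩
      intro h
      rw [hT', mem_image] at h
      obtain ⟨q, hq, rfl⟩ := h
      have h2 := (hTmem _).1 hq
      have h3 := hS q h2.1
      omega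
    have hnX : nxt l w ∈ X := by
      rw [hXmem]
      refine ⟨nxt_mem hw, ?_, ?_⟩
      · rw [hTmem]
        rintro ⟨-, h⟩
        have := hS w hw
        omega
      · rw [hT'mem w hw]
        exact hwT
    have hnw : nxt l w ≠ w := by
      intro h
      have h1 := congrArg Prod.snd h
      have h2 := mem_W.1 hw
      have h3 := hl w.1
      unfold nxt at h1
      simp only at h1
      split_ifs at h1 <;> omega
    have hY := hcount (X.erase w) (fun j hj => by
      obtain ⟨p, hp, h⟩ := hodd j hj
      by_cases hpw : p = w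
      · refine ⟨nxt l w, mem_erase.2 ⟨hnw, hnX⟩, ?_⟩
        rw [← h, hpw]
        rfl
      · exact ⟨p, mem_erase.2 ⟨hpw, hp⟩, h⟩)
    rw [card_erase_of_mem hwX] at hY
    have hXpos : 1 ≤ X.card := card_pos.2 ⟨w, hwX⟩
    omega
  · omega

theorem lower_one (hne : ∃ p ∈ W l, nxt l (nxt l p) ≠ p) (f : J × ℕ → ℕ)
    (hf : ∀ p ∈ W l, 1 ≤ f p ∧ f p ≤ (W l).card)
    (hinj : ∀ p ∈ W l, ∀ q ∈ W l, f p = f q → p = q) (S : ℕ)
    (hS : ∀ p ∈ W l, f p + f (nxt l p) ≤ S) : (W l).card + 2 ≤ S := by
  classical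
  by_contra hcon
  have hle : ∀ p ∈ W l, f p + f (nxt l p) ≤ (W l).card + 1 := fun p hp =>
    (hS p hp).trans (by omega)
  have himg : (W l).image (nxt l) = W l := by
    refine eq_of_subset_of_card_le (fun q hq => ?_) ?_
    · rw [mem_image] at hq
      obtain ⟨p, hp, rfl⟩ := hq
      exact nxt_mem hp
    · rw [card_image_of_injOn (fun p hp q hq h => nxt_inj hp hq h)]
  have h1 : ∑ p ∈ W l, f (nxt l p) = ∑ p ∈ W l, f p := by
    conv_rhs => rw [← himg]
    rw [sum_image (fun p hp q hq h => nxt_inj hp hq h)]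
  have h2 : ∑ p ∈ W l, f p = ∑ m ∈ Icc 1 (W l).card, m := by
    rw [← image_lab hf hinj, sum_image (fun p hp q hq h => hinj p hp q hq h)]
  have h3 : (∑ m ∈ Icc 1 (W l).card, m) * 2 = (W l).card * ((W l).card + 1) := by
    have h := Finset.sum_range_id_mul_two ((W l).card + 1)
    rw [Finset.sum_range_succ' (fun m => m)] at h
    have h' : ∑ m ∈ Icc 1 (W l).card, m = ∑ m ∈ range (W l).card, (m + 1) := by
      rw [← Finset.sum_image (f := fun m => m) (s := range (W l).card) (g := fun m => m + 1)
        (fun a _ b _ h => by simpa using h)]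
      congr 1
      ext m
      simp only [mem_Icc, mem_image, mem_range]
      constructor
      · rintro ⟨a, b⟩
        exact ⟨m - 1, by omega, by omega⟩
      · rintro ⟨a, b, rfl⟩
        omega
    rw [h']
    simp only [Nat.add_zero, Nat.add_sub_cancel] at h
    rw [h]
    ring
  have heq : ∀ p ∈ W l, f p + f (nxt l p) = (W l).card + 1 := by
    have h4 : ∑ p ∈ W l, (f p + f (nxt l p)) = ∑ _p ∈ W l, ((W l).card + 1) := by
      rw [sum_add_distrib, h1, h2, sum_const, smul_eq_mul]
      omega
    exact (sum_eq_sum_iff_of_le hle).1 h4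
  obtain ⟨p, hp, hpn⟩ := hne
  refine hpn (hinj _ (nxt_mem (nxt_mem hp)) p hp ?_)
  have a := heq p hp
  have b := heq _ (nxt_mem hp)
  omega

end Pool.Agent.Q292.NS
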